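import Pool.Agent.Helper85.SG.Defs

/-!
Project SG (MP_548113_co), block E: a cocycle mod 2 which is not the reduction of an integral one (the six vertex
projective plane).
-/

set_option autoImplicit false

namespace Pool.Helper85.SG

private instance faceDec38 : DecidablePred Face := fun s => by
  unfold Face
  infer_instance

/-- the nontrivial cocycle of the projective plane -/
private def al38 (x y : Fin 6) : ZMod 2 :=
  if (x, y) ∈ ([(1, 3), (3, 1), (1, 4), (4, 1), (2, 4), (4, 2), (2, 5), (5, 2), (3, 5), (5, 3)] : List (Fin 6 × Fin 6))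
  then 1 else 0

private theorem al_self38 : ∀ x, al38 x x = 0 := by decide

private theorem al_symm38 : ∀ x y, al38 x y = al38 y x := by decide

private theorem al_coc38 : ∀ F ∈ facets, ∀ x ∈ F, ∀ y ∈ F, ∀ z ∈ F, al38 y z - al38 x z + al38 x y = 0 := by decide

/-- the least element -/
private def lam38 (s : Finset (Fin 6)) : Fin 6 := if h : s.Nonempty then s.min' h else 0

private theorem lam_mem38 {s : Finset (Fin 6)} (h : s.Nonempty) : lam38 s ∈ s := by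
  rw [lam38, dif_pos h]
  exact s.min'_mem h

section

variable {P : Type} (θ : P → Finset (Fin 6))

private def ah38 (m m' : P) : ZMod 2 :=
  if (θ m).Nonempty ∧ Face (θ m) ∧ (θ m').Nonempty ∧ Face (θ m') then al38 (lam38 (θ m)) (lam38 (θ m')) else 0

private def k38 (x y z : P) : ZMod 2 :=
  if θ x = ∅ ∨ θ y = ∅ ∨ θ z = ∅ then 0 else ah38 θ y z - ah38 θ x z + ah38 θ x y

private theorem ah_self38 (m : P) : ah38 θ m m = 0 := by
  unfold ah38
  split_ifs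
  · exact al_self38 _
  · rfl

private theorem ah_symm38 (m m' : P) : ah38 θ m m' = ah38 θ m' m := by
  unfold ah38
  by_cases h : (θ m).Nonempty ∧ Face (θ m) ∧ (θ m').Nonempty ∧ Face (θ m')
  · rw [if_pos h, if_pos ⟨h.2.2.1, h.2.2.2, h.1, h.2.1⟩, al_symm38]
  · rw [if_neg h, if_neg fun h' => h ⟨h'.2.2.1, h'.2.2.2, h'.1, h'.2.1⟩]

private theorem ah_eq38 {m m' : P} (h1 : (θ m).Nonempty) (h2 : Face (θ m)) (h3 : (θ m').Nonempty) (h4 : Face (θ m')) :
    ah38 θ m m' = al38 (lam38 (θ m)) (lam38 (θ m')) := by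
  unfold ah38
  rw [if_pos ⟨h1, h2, h3, h4⟩]

private theorem nrm38 : Nrm (k38 θ) := by
  intro a b
  refine ⟨?_, ?_, ?_⟩
  · unfold k38
    split_ifs
    · rfl
    · rw [ah_self38]
      ring
  · unfold k38
    split_ifs
    · rfl
    · rw [ah_self38]
      ring
  · unfold k38
    split_ifs
    · rfl
    · rw [ah_self38, ah_symm38 θ b a, sub_zero, ← two_mul]
      have : (2 : ZMod 2) = 0 := by decide
      rw [this, zero_mul]

variable [PartialOrder P] {S : Set P}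

private theorem nest38 (hanti : ∀ m ∈ S, ∀ m' ∈ S, m ≤ m' → θ m' ⊆ θ m) {x y : P} (hx : x ∈ S) (hy : y ∈ S)
    (h : Cp x y) : θ x ⊆ θ y ∨ θ y ⊆ θ x := by
  rcases h with h | h
  · exact Or.inr (hanti x hx y hy h)
  · exact Or.inl (hanti y hy x hx h)

private theorem max38 {A B C : Finset (Fin 6)} (h1 : A ⊆ B ∨ B ⊆ A) (h2 : A ⊆ C ∨ C ⊆ A) (h3 : B ⊆ C ∨ C ⊆ B) :
    (B ⊆ A ∧ C ⊆ A) ∨ (A ⊆ B ∧ C ⊆ B) ∨ (A ⊆ C ∧ B ⊆ C) := by
  rcases h1 with h1 | h1
  · rcases h3 with h3 | h3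
    · exact Or.inr (Or.inr ⟨h1.trans h3, h3⟩)
    · exact Or.inr (Or.inl ⟨h1, h3⟩)
  · rcases h2 with h2 | h2
    · exact Or.inr (Or.inr ⟨h2, h1.trans h2⟩)
    · exact Or.inl ⟨h1, h2⟩

private theorem coc38 (hanti : ∀ m ∈ S, ∀ m' ∈ S, m ≤ m' → θ m' ⊆ θ m) {x y z : P} (hx : x ∈ S) (hy : y ∈ S)
    (hz : z ∈ S) (hxy : Cp x y) (hxz : Cp x z) (hyz : Cp y z) (fx : Face (θ x)) (fy : Face (θ y)) (fz : Face (θ z)) :
    k38 θ x y z = 0 := by
  unfold k38
  split_ifs with h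
  · rfl
  push Not at h
  obtain ⟨nx', ny', nz'⟩ := h
  rw [ah_eq38 θ ny' fy nz' fz, ah_eq38 θ nx' fx nz' fz, ah_eq38 θ nx' fx ny' fy]
  obtain ⟨F, hF, h1, h2, h3⟩ : ∃ F ∈ facets, θ x ⊆ F ∧ θ y ⊆ F ∧ θ z ⊆ F := by
    rcases max38 (nest38 θ hanti hx hy hxy) (nest38 θ hanti hx hz hxz) (nest38 θ hanti hy hz hyz) with h | h | h
    · obtain ⟨F, hF, h'⟩ := fx
      exact ⟨F, hF, h', h.1.trans h', h.2.trans h'⟩
    · obtain ⟨F, hF, h'⟩ := fy
      exact ⟨F, hF, h.1.trans h', h', h.2.trans h'⟩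
    · obtain ⟨F, hF, h'⟩ := fz
      exact ⟨F, hF, h.1.trans h', h.2.trans h', h'⟩
  exact al_coc38 F hF _ (h1 (lam_mem38 nx')) _ (h2 (lam_mem38 ny')) _ (h3 (lam_mem38 nz'))


private theorem scoc38 (hanti : ∀ m ∈ S, ∀ m' ∈ S, m ≤ m' → θ m' ⊆ θ m)
    (hii : ∀ m ∈ S, ∀ m' ∈ S, Cp m m' → θ m = ∅ → Face (θ m')) : SCoc S (k38 θ) := by
  intro a ha b hb c hc d hd ab ac ad bc bd cd
  have z1 : ∀ x y z : P, θ x = ∅ → k38 θ x y z = 0 := fun x y z h => by rw [k38, if_pos (Or.inl h)]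
  have z2 : ∀ x y z : P, θ y = ∅ → k38 θ x y z = 0 := fun x y z h => by rw [k38, if_pos (Or.inr (Or.inl h))]
  have z3 : ∀ x y z : P, θ z = ∅ → k38 θ x y z = 0 := fun x y z h => by rw [k38, if_pos (Or.inr (Or.inr h))]
  by_cases ea : θ a = ∅
  · rw [z1 a c d ea, z1 a b d ea, z1 a b c ea, coc38 θ hanti hb hc hd bc bd cd (hii a ha b hb ab ea)
      (hii a ha c hc ac ea) (hii a ha d hd ad ea)]
    ring
  by_cases eb : θ b = ∅
  · rw [z1 b c d eb, z2 a b d eb, z2 a b c eb, coc38 θ hanti ha hc hd ac ad cd (hii b hb a ha (Or.symm ab) eb)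
      (hii b hb c hc bc eb) (hii b hb d hd bd eb)]
    ring
  by_cases ec : θ c = ∅
  · rw [z2 b c d ec, z2 a c d ec, z3 a b c ec, coc38 θ hanti ha hb hd ab ad bd (hii c hc a ha (Or.symm ac) ec)
      (hii c hc b hb (Or.symm bc) ec) (hii c hc d hd cd ec)]
    ring
  by_cases ed : θ d = ∅
  · rw [z3 b c d ed, z3 a c d ed, z3 a b d ed, coc38 θ hanti ha hb hc ab ac bc (hii d hd a ha (Or.symm ad) ed)
      (hii d hd b hb (Or.symm bd) ed) (hii d hd c hc (Or.symm cd) ed)]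
    ring
  have e : ∀ x y z : P, θ x ≠ ∅ → θ y ≠ ∅ → θ z ≠ ∅ → k38 θ x y z = ah38 θ y z - ah38 θ x z + ah38 θ x y := by
    intro x y z hx hy hz
    rw [k38, if_neg]
    push Not
    exact ⟨Finset.nonempty_iff_ne_empty.2 hx, Finset.nonempty_iff_ne_empty.2 hy, Finset.nonempty_iff_ne_empty.2 hz⟩
  rw [e b c d eb ec ed, e a c d ea ec ed, e a b d ea eb ed, e a b c ea eb ec]
  ring

end

theorem alg {P : Type} [PartialOrder P] (S : Set P) (θ : P → Finset (Fin 6))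
    (hanti : ∀ m ∈ S, ∀ m' ∈ S, m ≤ m' → θ m' ⊆ θ m)
    (hii : ∀ m ∈ S, ∀ m' ∈ S, Cp m m' → θ m = ∅ → Face (θ m'))
    (a b : Finset (Fin 6) → P) (t u : P) (ht : t ∈ S) (hu : u ∈ S)
    (hθt : θ t = Finset.univ) (hθu : θ u = ∅)
    (ha : ∀ s, Face s → s.Nonempty → a s ∈ S ∧ θ (a s) = s)
    (hb : ∀ s, Face s → s.Nonempty → b s ∈ S ∧ θ (b s) = s)
    (haa : ∀ s s', Face s' → s.Nonempty → s ⊆ s' → a s' ≤ a s)
    (hab : ∀ s s', Face s' → s.Nonempty → s ⊆ s' → b s' ≤ a s)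
    (hbb : ∀ s s', Face s' → s.Nonempty → s ⊆ s' → b s' ≤ b s)
    (hat : ∀ s, Face s → s.Nonempty → t ≤ a s)
    (hub : ∀ s, Face s → s.Nonempty → b s ≤ u) :
    ∃ k : P → P → P → ZMod 2, SCoc S k ∧ Nrm k ∧ ¬ SLift S k := by
  refine ⟨k38 θ, scoc38 θ hanti hii, nrm38 θ, ?_⟩
  rintro ⟨k', B, hk', hk⟩
  have face_sub : ∀ {s s' : Finset (Fin 6)}, s ⊆ s' → Face s' → Face s := by
    rintro s s' h ⟨F, hF, h'⟩
    exact ⟨F, hF, h.trans h'⟩
  have unF : ¬ Face Finset.univ := by decide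
  obtain ⟨η, hη⟩ : ∃ η : Finset (Fin 6) → Finset (Fin 6) → ℤ, η = fun s s' =>
    k' (a s) (a s') t - k' (a s) (a s') (b s') + k' (a s) (b s) (b s') - k' u (b s) (b s') := ⟨_, rfl⟩
  -- the cocycle relation
  have hcoc : ∀ s s' s'', s.Nonempty → s ⊆ s' → s' ⊆ s'' → Face s'' → η s' s'' - η s s'' + η s s' = 0 := by
    intro s s' s'' n1 h1 h2 f3
    have n2 := n1.mono h1
    have n3 := n2.mono h2
    have f2 := face_sub h2 f3
    have f1 := face_sub h1 f2
    have r1 := hk' (a s) (ha s f1 n1).1 (a s') (ha s' f2 n2).1 (a s'') (ha s'' f3 n3).1 t ht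
      (Or.inr (haa s s' f2 n1 h1)) (Or.inr (haa s s'' f3 n1 (h1.trans h2))) (Or.inr (hat s f1 n1))
      (Or.inr (haa s' s'' f3 n2 h2)) (Or.inr (hat s' f2 n2)) (Or.inr (hat s'' f3 n3))
    have r2 := hk' (a s) (ha s f1 n1).1 (a s') (ha s' f2 n2).1 (a s'') (ha s'' f3 n3).1 (b s'') (hb s'' f3 n3).1
      (Or.inr (haa s s' f2 n1 h1)) (Or.inr (haa s s'' f3 n1 (h1.trans h2))) (Or.inr (hab s s'' f3 n1 (h1.trans h2)))
      (Or.inr (haa s' s'' f3 n2 h2)) (Or.inr (hab s' s'' f3 n2 h2)) (Or.inr (hab s'' s'' f3 n3 subset_rfl))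
    have r3 := hk' (a s) (ha s f1 n1).1 (a s') (ha s' f2 n2).1 (b s') (hb s' f2 n2).1 (b s'') (hb s'' f3 n3).1
      (Or.inr (haa s s' f2 n1 h1)) (Or.inr (hab s s' f2 n1 h1)) (Or.inr (hab s s'' f3 n1 (h1.trans h2)))
      (Or.inr (hab s' s' f2 n2 subset_rfl)) (Or.inr (hab s' s'' f3 n2 h2)) (Or.inr (hbb s' s'' f3 n2 h2))
    have r4 := hk' (a s) (ha s f1 n1).1 (b s) (hb s f1 n1).1 (b s') (hb s' f2 n2).1 (b s'') (hb s'' f3 n3).1
      (Or.inr (hab s s f1 n1 subset_rfl)) (Or.inr (hab s s' f2 n1 h1)) (Or.inr (hab s s'' f3 n1 (h1.trans h2)))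
      (Or.inr (hbb s s' f2 n1 h1)) (Or.inr (hbb s s'' f3 n1 (h1.trans h2))) (Or.inr (hbb s' s'' f3 n2 h2))
    have r5 := hk' u hu (b s) (hb s f1 n1).1 (b s') (hb s' f2 n2).1 (b s'') (hb s'' f3 n3).1
      (Or.inr (hub s f1 n1)) (Or.inr (hub s' f2 n2)) (Or.inr (hub s'' f3 n3))
      (Or.inr (hbb s s' f2 n1 h1)) (Or.inr (hbb s s'' f3 n1 (h1.trans h2))) (Or.inr (hbb s' s'' f3 n2 h2))
    rw [hη]
    linarith
  -- the reduction mod 2
  obtain ⟨ζ, hζ⟩ : ∃ ζ : Finset (Fin 6) → ZMod 2, ζ = fun s => B (a s) t - B (a s) (b s) + B u (b s) := ⟨_, rfl⟩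
  have hmod : ∀ s s', s.Nonempty → s ⊆ s' → Face s' →
      (η s s' : ZMod 2) = al38 (lam38 s) (lam38 s') - (ζ s' - ζ s) := by
    intro s s' n1 h1 f2
    have n2 := n1.mono h1
    have f1 := face_sub h1 f2
    have q1 := hk (a s) (ha s f1 n1).1 (a s') (ha s' f2 n2).1 t ht
      (Or.inr (haa s s' f2 n1 h1)) (Or.inr (hat s f1 n1)) (Or.inr (hat s' f2 n2))
    have q2 := hk (a s) (ha s f1 n1).1 (a s') (ha s' f2 n2).1 (b s') (hb s' f2 n2).1
      (Or.inr (haa s s' f2 n1 h1)) (Or.inr (hab s s' f2 n1 h1)) (Or.inr (hab s' s' f2 n2 subset_rfl))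
    have q3 := hk (a s) (ha s f1 n1).1 (b s) (hb s f1 n1).1 (b s') (hb s' f2 n2).1
      (Or.inr (hab s s f1 n1 subset_rfl)) (Or.inr (hab s s' f2 n1 h1)) (Or.inr (hbb s s' f2 n1 h1))
    have q4 := hk u hu (b s) (hb s f1 n1).1 (b s') (hb s' f2 n2).1
      (Or.inr (hub s f1 n1)) (Or.inr (hub s' f2 n2)) (Or.inr (hbb s s' f2 n1 h1))
    have ta : θ (a s) = s := (ha s f1 n1).2
    have ta' : θ (a s') = s' := (ha s' f2 n2).2
    have tb : θ (b s) = s := (hb s f1 n1).2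
    have tb' : θ (b s') = s' := (hb s' f2 n2).2
    have v1 : k38 θ (a s) (a s') t = al38 (lam38 s) (lam38 s') := by
      rw [k38, if_neg (by rw [ta, ta', hθt]; push Not; exact ⟨n1, n2, Finset.univ_nonempty⟩)]
      have e1 : ∀ m, ah38 θ m t = 0 := by
        intro m
        rw [ah38, if_neg]
        rintro ⟨-, -, -, h⟩
        rw [hθt] at h
        exact unF h
      rw [e1, e1, ah_eq38 θ (by rw [ta]; exact n1) (by rw [ta]; exact f1) (by rw [ta']; exact n2)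
        (by rw [ta']; exact f2), ta, ta']
      ring
    have v2 : k38 θ (a s) (a s') (b s') = 0 := by
      refine coc38 θ hanti (ha s f1 n1).1 (ha s' f2 n2).1 (hb s' f2 n2).1 (Or.inr (haa s s' f2 n1 h1))
        (Or.inr (hab s s' f2 n1 h1)) (Or.inr (hab s' s' f2 n2 subset_rfl)) ?_ ?_ ?_
      · rw [ta]; exact f1
      · rw [ta']; exact f2
      · rw [tb']; exact f2
    have v3 : k38 θ (a s) (b s) (b s') = 0 := by
      refine coc38 θ hanti (ha s f1 n1).1 (hb s f1 n1).1 (hb s' f2 n2).1 (Or.inr (hab s s f1 n1 subset_rfl))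
        (Or.inr (hab s s' f2 n1 h1)) (Or.inr (hbb s s' f2 n1 h1)) ?_ ?_ ?_
      · rw [ta]; exact f1
      · rw [tb]; exact f1
      · rw [tb']; exact f2
    have v4 : k38 θ u (b s) (b s') = 0 := by rw [k38, if_pos (Or.inl hθu)]
    rw [v1] at q1
    rw [v2] at q2
    rw [v3] at q3
    rw [v4] at q4
    rw [hη, hζ]
    push_cast
    linear_combination -q1 + q2 - q3 + q4
  -- the edges
  obtain ⟨e, he⟩ : ∃ e : Fin 6 → Fin 6 → ℤ, e = fun v w => η {v} {v, w} - η {w} {v, w} := ⟨_, rfl⟩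
  have hfac : ∀ F ∈ facets, ∀ v ∈ F, ∀ w ∈ F, e v w = η {v} F - η {w} F := by
    intro F hF v hv w hw
    have f : Face F := ⟨F, hF, subset_rfl⟩
    have s1 : ({v, w} : Finset (Fin 6)) ⊆ F := by
      intro x hx
      rw [Finset.mem_insert, Finset.mem_singleton] at hx
      rcases hx with rfl | rfl
      · exact hv
      · exact hw
    have c1 := hcoc {v} {v, w} F (Finset.singleton_nonempty v) (by simp) s1 f
    have c2 := hcoc {w} {v, w} F (Finset.singleton_nonempty w) (by simp) s1 f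
    rw [he]
    linarith
  have hm2 : ∀ v w : Fin 6, Face {v, w} → (e v w : ZMod 2) = al38 v (lam38 {v, w}) - al38 w (lam38 {v, w}) +
      ζ {v} - ζ {w} := by
    intro v w hf
    have l1 : ∀ v : Fin 6, lam38 {v} = v := by decide
    have m1 := hmod {v} {v, w} (Finset.singleton_nonempty v) (by simp) hf
    have m2 := hmod {w} {v, w} (Finset.singleton_nonempty w) (by simp) hf
    rw [l1] at m1 m2
    rw [he]
    push_cast
    rw [m1, m2]
    ring
  have tri : ∀ F ∈ facets, ∀ x ∈ F, ∀ y ∈ F, ∀ z ∈ F, e x y + e y z = e x z := by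
    intro F hF x hx y hy z hz
    rw [hfac F hF x hx y hy, hfac F hF y hy z hz, hfac F hF x hx z hz]
    ring
  have t1 := tri {0,1,2} (by decide) 0 (by decide) 1 (by decide) 2 (by decide)
  have t2 := tri {0,2,3} (by decide) 0 (by decide) 2 (by decide) 3 (by decide)
  have t3 := tri {0,3,4} (by decide) 0 (by decide) 3 (by decide) 4 (by decide)
  have t4 := tri {0,4,5} (by decide) 0 (by decide) 4 (by decide) 5 (by decide)
  have t5 := tri {0,1,5} (by decide) 0 (by decide) 1 (by decide) 5 (by decide)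
  have t6 := tri {1,2,4} (by decide) 1 (by decide) 2 (by decide) 4 (by decide)
  have t7 := tri {2,3,5} (by decide) 2 (by decide) 3 (by decide) 5 (by decide)
  have t8 := tri {1,3,4} (by decide) 1 (by decide) 3 (by decide) 4 (by decide)
  have t9 := tri {2,4,5} (by decide) 2 (by decide) 4 (by decide) 5 (by decide)
  have t10 := tri {1,3,5} (by decide) 1 (by decide) 3 (by decide) 5 (by decide)
  have key : e 1 3 = e 0 3 - e 0 1 := by linarith
  have key2 := congrArg (fun z : ℤ => (z : ZMod 2)) key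
  push_cast at key2
  rw [hm2 1 3 (by decide), hm2 0 3 (by decide), hm2 0 1 (by decide)] at key2
  have a1 : al38 1 (lam38 {1, 3}) - al38 3 (lam38 {1, 3}) = 1 := by decide
  have a2 : al38 0 (lam38 {0, 3}) - al38 3 (lam38 {0, 3}) = 0 := by decide
  have a3 : al38 0 (lam38 {0, 1}) - al38 1 (lam38 {0, 1}) = 0 := by decide
  rw [a1, a2, a3] at key2
  have fin : (1 : ZMod 2) = 0 := by linear_combination key2
  exact absurd fin (by decide)

end Pool.Helper85.SG
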