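import Mathlib

/-!
Definitions for the disproof of Shareshian's question (MP_548113_co, S08794).
Small cochains (Alexander-Spanier style) on subsets of metric spaces.
-/

set_option autoImplicit false

namespace Pool.Helper85.SG

/-- `c` is a 2-cocycle on `delta`-small tuples of points of `S`. -/
def Coc2 {E A : Type} [PseudoMetricSpace E] [AddCommGroup A] (S : Set E) (δ : ℝ)
    (c : E → E → E → A) : Prop :=
  ∀ x ∈ S, ∀ y ∈ S, ∀ z ∈ S, ∀ w ∈ S,
    dist x y < δ → dist x z < δ → dist x w < δ → dist y z < δ → dist y w < δ → dist z w < δ →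
      c y z w - c x z w + c x y w - c x y z = 0

/-- `c` is a 1-cocycle on `delta`-small tuples of points of `S`. -/
def Coc1 {E A : Type} [PseudoMetricSpace E] [AddCommGroup A] (S : Set E) (δ : ℝ)
    (c : E → E → A) : Prop :=
  ∀ x ∈ S, ∀ y ∈ S, ∀ z ∈ S,
    dist x y < δ → dist x z < δ → dist y z < δ → c y z - c x z + c x y = 0

/-- `c = c' + d b` on `delta`-small triples of `S`. -/
def Coh2 {E A : Type} [PseudoMetricSpace E] [AddCommGroup A] (S : Set E) (δ : ℝ)
    (c c' : E → E → E → A) (b : E → E → A) : Prop :=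
  ∀ x ∈ S, ∀ y ∈ S, ∀ z ∈ S,
    dist x y < δ → dist x z < δ → dist y z < δ → c x y z = c' x y z + (b y z - b x z + b x y)

/-- `c = c' + d g` on `delta`-small pairs of `S`. -/
def Coh1 {E A : Type} [PseudoMetricSpace E] [AddCommGroup A] (S : Set E) (δ : ℝ)
    (c c' : E → E → A) (g : E → A) : Prop :=
  ∀ x ∈ S, ∀ y ∈ S, dist x y < δ → c x y = c' x y + (g y - g x)

/-- Every small 2-cocycle mod 2 is a small coboundary. -/
def Van2 {E : Type} [PseudoMetricSpace E] (S : Set E) : Prop :=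
  ∀ (c : E → E → E → ZMod 2) (δ : ℝ), 0 < δ → Coc2 S δ c →
    ∃ (b : E → E → ZMod 2) (ε : ℝ), 0 < ε ∧ Coh2 S ε c (fun _ _ _ => 0) b

/-- Every small 1-cocycle mod 2 is a small coboundary. -/
def Van1 {E : Type} [PseudoMetricSpace E] (S : Set E) : Prop :=
  ∀ (c : E → E → ZMod 2) (δ : ℝ), 0 < δ → Coc1 S δ c →
    ∃ (g : E → ZMod 2) (ε : ℝ), 0 < ε ∧ Coh1 S ε c (fun _ _ => 0) g

/-- Every small 2-cocycle mod 2 is cohomologous to the reduction of an integral one. -/
def Lift2 {E : Type} [PseudoMetricSpace E] (S : Set E) : Prop :=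
  ∀ (c : E → E → E → ZMod 2) (δ : ℝ), 0 < δ → Coc2 S δ c →
    ∃ (c' : E → E → E → ℤ) (b : E → E → ZMod 2) (ε : ℝ), 0 < ε ∧ Coc2 S ε c' ∧
      Coh2 S ε c (fun x y z => (c' x y z : ZMod 2)) b

/-- Every small 1-cocycle mod 2 is cohomologous to the reduction of an integral one. -/
def Lift1 {E : Type} [PseudoMetricSpace E] (S : Set E) : Prop :=
  ∀ (c : E → E → ZMod 2) (δ : ℝ), 0 < δ → Coc1 S δ c →
    ∃ (c' : E → E → ℤ) (g : E → ZMod 2) (ε : ℝ), 0 < ε ∧ Coc1 S ε c' ∧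
      Coh1 S ε c (fun x y => (c' x y : ZMod 2)) g

/-- The realization of the order complex of the subset `S` of a poset `P`, as a set of functions. -/
def XR {P : Type} [PartialOrder P] (S : Set P) : Set (P → ℝ) :=
  {f | (∀ p, 0 ≤ f p) ∧ (∀ p, f p ≠ 0 → p ∈ S) ∧
    IsChain (· ≤ ·) {p | f p ≠ 0} ∧ ∑ᶠ p, f p = 1}

/-- The wedge of spheres of the frozen statement. -/
def WS (n : ℕ) (d : Fin n → ℕ) : Set ((i : Fin n) → EuclideanSpace ℝ (Fin (d i + 1))) :=
  {x | (∀ i, ‖x i‖ = 1) ∧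
    ∀ i j, i ≠ j → x i = EuclideanSpace.single 0 1 ∨ x j = EuclideanSpace.single 0 1}

/-- Comparable. -/
def Cp {P : Type} [PartialOrder P] (a b : P) : Prop := a ≤ b ∨ b ≤ a

/-- Simplicial 2-cocycle on chains of `S`. -/
def SCoc {P A : Type} [PartialOrder P] [AddCommGroup A] (S : Set P) (k : P → P → P → A) : Prop :=
  ∀ a ∈ S, ∀ b ∈ S, ∀ c ∈ S, ∀ d ∈ S, Cp a b → Cp a c → Cp a d → Cp b c → Cp b d → Cp c d →
    k b c d - k a c d + k a b d - k a b c = 0

/-- Simplicial lifting of a 2-cochain mod 2 on chains of `S`. -/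
def SLift {P : Type} [PartialOrder P] (S : Set P) (k : P → P → P → ZMod 2) : Prop :=
  ∃ (k' : P → P → P → ℤ) (B : P → P → ZMod 2), SCoc S k' ∧
    ∀ a ∈ S, ∀ b ∈ S, ∀ c ∈ S, Cp a b → Cp a c → Cp b c →
      k a b c = (k' a b c : ZMod 2) + (B b c - B a c + B a b)

/-- Normalized. -/
def Nrm {P A : Type} [Zero A] (k : P → P → P → A) : Prop :=
  ∀ a b, k a a b = 0 ∧ k a b b = 0 ∧ k a b a = 0

/-- The facets of the six vertex projective plane. -/
def facets : List (Finset (Fin 6)) :=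
  [{0,1,2}, {0,2,3}, {0,3,4}, {0,4,5}, {0,1,5}, {1,2,4}, {2,3,5}, {1,3,4}, {2,4,5}, {1,3,5}]

/-- The faces of the six vertex projective plane (the empty set included). -/
def Face (s : Finset (Fin 6)) : Prop := ∃ F ∈ facets, s ⊆ F

end Pool.Helper85.SG
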