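import Pool.Agent.Helper85.SG.Defs

/-!
# Block B: gluing of small cocycles

`cpt34`: near points of two compact sets are near to the intersection.  `retr34`: the (discontinuous) map `r` which moves
the points near `A ∩ B` into `A ∩ B`; it maps small tuples of `A ∪ B` to tuples of `A` or to tuples of `B`.
-/

set_option autoImplicit false

namespace Pool.Helper85.SG

open Set

private theorem prism2_34 {X Y A : Type} [PseudoMetricSpace X] [PseudoMetricSpace Y] [AddCommGroup A]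
    (S : Set X) (T : Set Y) (f₀ f₁ : X → Y) (ε δ : ℝ) (hε : 0 < ε)
    (hm₀ : ∀ x ∈ S, f₀ x ∈ T) (hm₁ : ∀ x ∈ S, f₁ x ∈ T)
    (h00 : ∀ x ∈ S, ∀ y ∈ S, dist x y < ε → dist (f₀ x) (f₀ y) < δ)
    (h11 : ∀ x ∈ S, ∀ y ∈ S, dist x y < ε → dist (f₁ x) (f₁ y) < δ)
    (h01 : ∀ x ∈ S, ∀ y ∈ S, dist x y < ε → dist (f₀ x) (f₁ y) < δ)
    (c : Y → Y → Y → A) (hc : Coc2 T δ c) :
    ∃ h : X → X → A, Coh2 S ε (fun x y z => c (f₁ x) (f₁ y) (f₁ z))
      (fun x y z => c (f₀ x) (f₀ y) (f₀ z)) h := by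
  refine ⟨fun x y => c (f₀ x) (f₁ x) (f₁ y) - c (f₀ x) (f₀ y) (f₁ y), ?_⟩
  intro x hx y hy z hz hxy hxz hyz
  have hd : ∀ x ∈ S, dist (f₀ x) (f₁ x) < δ := fun x hx => h01 x hx x hx (by rw [dist_self]; exact hε)
  have R1 := hc (f₀ x) (hm₀ x hx) (f₁ x) (hm₁ x hx) (f₁ y) (hm₁ y hy) (f₁ z) (hm₁ z hz)
    (hd x hx) (h01 x hx y hy hxy) (h01 x hx z hz hxz) (h11 x hx y hy hxy) (h11 x hx z hz hxz) (h11 y hy z hz hyz)
  have R2 := hc (f₀ x) (hm₀ x hx) (f₀ y) (hm₀ y hy) (f₁ y) (hm₁ y hy) (f₁ z) (hm₁ z hz)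
    (h00 x hx y hy hxy) (h01 x hx y hy hxy) (h01 x hx z hz hxz) (hd y hy) (h01 y hy z hz hyz) (h11 y hy z hz hyz)
  have R3 := hc (f₀ x) (hm₀ x hx) (f₀ y) (hm₀ y hy) (f₀ z) (hm₀ z hz) (f₁ z) (hm₁ z hz)
    (h00 x hx y hy hxy) (h00 x hx z hz hxz) (h01 x hx z hz hxz) (h00 y hy z hz hyz) (h01 y hy z hz hyz) (hd z hz)
  beta_reduce
  linear_combination (norm := abel) R1 - R2 + R3

private theorem prism1_34 {X Y A : Type} [PseudoMetricSpace X] [PseudoMetricSpace Y] [AddCommGroup A]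
    (S : Set X) (T : Set Y) (f₀ f₁ : X → Y) (ε δ : ℝ) (hε : 0 < ε)
    (hm₀ : ∀ x ∈ S, f₀ x ∈ T) (hm₁ : ∀ x ∈ S, f₁ x ∈ T)
    (h00 : ∀ x ∈ S, ∀ y ∈ S, dist x y < ε → dist (f₀ x) (f₀ y) < δ)
    (h11 : ∀ x ∈ S, ∀ y ∈ S, dist x y < ε → dist (f₁ x) (f₁ y) < δ)
    (h01 : ∀ x ∈ S, ∀ y ∈ S, dist x y < ε → dist (f₀ x) (f₁ y) < δ)
    (c : Y → Y → A) (hc : Coc1 T δ c) :
    ∃ h : X → A, Coh1 S ε (fun x y => c (f₁ x) (f₁ y)) (fun x y => c (f₀ x) (f₀ y)) h := by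
  refine ⟨fun x => c (f₀ x) (f₁ x), ?_⟩
  intro x hx y hy hxy
  have hd : ∀ x ∈ S, dist (f₀ x) (f₁ x) < δ := fun x hx => h01 x hx x hx (by rw [dist_self]; exact hε)
  have R1 := hc (f₀ x) (hm₀ x hx) (f₁ x) (hm₁ x hx) (f₁ y) (hm₁ y hy)
    (hd x hx) (h01 x hx y hy hxy) (h11 x hx y hy hxy)
  have R2 := hc (f₀ x) (hm₀ x hx) (f₀ y) (hm₀ y hy) (f₁ y) (hm₁ y hy)
    (h00 x hx y hy hxy) (h01 x hx y hy hxy) (hd y hy)
  beta_reduce
  linear_combination (norm := abel) R1 - R2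

private theorem cpt34 {E : Type} [MetricSpace E] (A B : Set E) (hA : IsCompact A) (hB : IsCompact B) {η : ℝ} (hη : 0 < η) :
    ∃ δ : ℝ, 0 < δ ∧ ∀ x ∈ A, ∀ y ∈ B, dist x y < δ → ∃ z ∈ A ∩ B, dist x z < η ∧ dist y z < η := by
  obtain ⟨K, hK⟩ : ∃ K : Set (E × E), K = (A ×ˢ B) ∩ {p | ∀ z ∈ A ∩ B, η / 2 ≤ dist p.1 z} := ⟨_, rfl⟩
  have hKc : IsCompact K := by
    rw [hK]
    refine (hA.prod hB).inter_right ?_
    have h1 : {p : E × E | ∀ z ∈ A ∩ B, η / 2 ≤ dist p.1 z} = ⋂ z ∈ A ∩ B, {p | η / 2 ≤ dist p.1 z} := by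
      ext p
      simp only [mem_ofPred_eq, mem_iInter]
    rw [h1]
    exact isClosed_biInter fun z _ => isClosed_le continuous_const (continuous_fst.dist continuous_const)
  obtain ⟨δ₀, hδ₀, hm⟩ : ∃ δ₀ : ℝ, 0 < δ₀ ∧ ∀ p ∈ K, δ₀ ≤ dist p.1 p.2 := by
    rcases K.eq_empty_or_nonempty with hE | hE
    · exact ⟨1, one_pos, fun p hp => by rw [hE] at hp; exact absurd hp (notMem_empty p)⟩
    · obtain ⟨p, hp, hmin⟩ := hKc.exists_isMinOn hE (continuous_dist.continuousOn (s := K))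
      refine ⟨dist p.1 p.2, ?_, fun p' hp' => hmin hp'⟩
      rw [dist_pos]
      intro heq
      rw [hK] at hp
      have h1 := hp.2 p.1 ⟨hp.1.1, by rw [heq]; exact hp.1.2⟩
      rw [dist_self] at h1
      linarith
  refine ⟨min (η / 2) δ₀, lt_min (by linarith) hδ₀, fun x hx y hy hxy => ?_⟩
  have h1 : (x, y) ∉ K := fun h => absurd (hm _ h) (not_le.2 (lt_of_lt_of_le hxy (min_le_right _ _)))
  have h2 : ∃ z ∈ A ∩ B, dist x z < η / 2 := by
    by_contra hcon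
    push Not at hcon
    apply h1
    rw [hK]
    exact ⟨⟨hx, hy⟩, hcon⟩
  obtain ⟨z, hz, hxz⟩ := h2
  refine ⟨z, hz, by linarith, ?_⟩
  have h3 := dist_triangle y x z
  have h4 : dist y x < η / 2 := by
    rw [dist_comm]
    exact lt_of_lt_of_le hxy (min_le_left _ _)
  linarith

private theorem retr34 {E : Type} [MetricSpace E] (A B : Set E) (hA : IsCompact A) (hB : IsCompact B) {η : ℝ} (hη : 0 < η) :
    ∃ (r : E → E) (δ : ℝ), 0 < δ ∧ (∀ x ∈ A, r x ∈ A) ∧ (∀ x ∈ B, r x ∈ B) ∧ (∀ x, dist x (r x) < η) ∧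
      ∀ T : Set E, T ⊆ A ∪ B → (∀ x ∈ T, ∀ y ∈ T, dist x y < δ) → (∀ x ∈ T, r x ∈ A) ∨ ∀ x ∈ T, r x ∈ B := by
  classical
  obtain ⟨δ, hδ, h⟩ := cpt34 A B hA hB hη
  obtain ⟨r, hr⟩ : ∃ r : E → E, r = fun x => if hx : ∃ z ∈ A ∩ B, dist x z < η then hx.choose else x := ⟨_, rfl⟩
  have h1 : ∀ x, (∃ z ∈ A ∩ B, dist x z < η) → r x ∈ A ∩ B ∧ dist x (r x) < η := by
    intro x hx
    have h2 : r x = hx.choose := by rw [hr]; exact dif_pos hx
    rw [h2]
    exact hx.choose_spec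
  have h2 : ∀ x, (¬ ∃ z ∈ A ∩ B, dist x z < η) → r x = x := by
    intro x hx
    rw [hr]
    exact dif_neg hx
  have hAr : ∀ x ∈ A, r x ∈ A := by
    intro x hx
    by_cases hz : ∃ z ∈ A ∩ B, dist x z < η
    · exact (h1 x hz).1.1
    · rw [h2 x hz]
      exact hx
  have hBr : ∀ x ∈ B, r x ∈ B := by
    intro x hx
    by_cases hz : ∃ z ∈ A ∩ B, dist x z < η
    · exact (h1 x hz).1.2
    · rw [h2 x hz]
      exact hx
  refine ⟨r, δ, hδ, hAr, hBr, ?_, ?_⟩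
  · intro x
    by_cases hz : ∃ z ∈ A ∩ B, dist x z < η
    · exact (h1 x hz).2
    · rw [h2 x hz, dist_self]
      exact hη
  · intro T hT hd
    by_cases hp : ∃ p ∈ T, p ∉ A
    · obtain ⟨p, hpT, hpA⟩ := hp
      have hpB : p ∈ B := (hT hpT).resolve_left hpA
      right
      intro x hx
      rcases hT hx with hxA | hxB
      · obtain ⟨z, hz, hxz, -⟩ := h x hxA p hpB (hd x hx p hpT)
        exact (h1 x ⟨z, hz, hxz⟩).1.2
      · exact hBr x hxB
    · push Not at hp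
      left
      exact fun x hx => hAr x (hp x hx)

private theorem r3_34 {E : Type} [MetricSpace E] {P : E → E → Prop} (hs : ∀ x y, P x y → P y x) (hr : ∀ x, P x x) {x y z : E}
    (h1 : P x y) (h2 : P x z) (h3 : P y z) : ∀ a ∈ ({x, y, z} : Set E), ∀ b ∈ ({x, y, z} : Set E), P a b := by
  rintro a (rfl | rfl | rfl) b (rfl | rfl | rfl)
  · exact hr _
  · exact h1
  · exact h2
  · exact hs _ _ h1
  · exact hr _
  · exact h3
  · exact hs _ _ h2
  · exact hs _ _ h3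
  · exact hr _

private theorem r4_34 {E : Type} [MetricSpace E] {P : E → E → Prop} (hs : ∀ x y, P x y → P y x) (hr : ∀ x, P x x)
    {x y z w : E} (h1 : P x y) (h2 : P x z) (h3 : P x w) (h4 : P y z) (h5 : P y w) (h6 : P z w) :
    ∀ a ∈ ({x, y, z, w} : Set E), ∀ b ∈ ({x, y, z, w} : Set E), P a b := by
  rintro a (rfl | rfl | rfl | rfl) b (rfl | rfl | rfl | rfl)
  · exact hr _
  · exact h1
  · exact h2
  · exact h3
  · exact hs _ _ h1
  · exact hr _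
  · exact h4
  · exact h5
  · exact hs _ _ h2
  · exact hs _ _ h4
  · exact hr _
  · exact h6
  · exact hs _ _ h3
  · exact hs _ _ h5
  · exact hs _ _ h6
  · exact hr _

private theorem s3_34 {E : Type} {S : Set E} {x y z : E} (hx : x ∈ S) (hy : y ∈ S) (hz : z ∈ S) :
    ({x, y, z} : Set E) ⊆ S := by
  rintro a (rfl | rfl | rfl) <;> assumption

private theorem s4_34 {E : Type} {S : Set E} {x y z w : E} (hx : x ∈ S) (hy : y ∈ S) (hz : z ∈ S) (hw : w ∈ S) :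
    ({x, y, z, w} : Set E) ⊆ S := by
  rintro a (rfl | rfl | rfl | rfl) <;> assumption

private theorem cast34 (a : ZMod 2) : ((a.val : ℤ) : ZMod 2) = a := by simp

theorem lift2_union {E : Type} [MetricSpace E] (A B : Set E) (hA : IsCompact A)
    (hB : IsCompact B) (vA : Van2 A) (vB : Van2 B) (l : Lift1 (A ∩ B)) : Lift2 (A ∪ B) := by
  classical
  intro c δ₀ hδ₀ hc
  obtain ⟨bA, εA, hεA, hbA⟩ := vA c δ₀ hδ₀ fun x hx y hy z hz w hw => hc x (.inl hx) y (.inl hy) z (.inl hz) w (.inl hw)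
  obtain ⟨bB, εB, hεB, hbB⟩ := vB c δ₀ hδ₀ fun x hx y hy z hz w hw => hc x (.inr hx) y (.inr hy) z (.inr hz) w (.inr hw)
  obtain ⟨e', g, ε₂, hε₂, he', hg⟩ := l (fun x y => bA x y - bB x y) (min εA εB) (lt_min hεA hεB) (by
    intro x hx y hy z hz h1 h2 h3
    have h4 := hbA x hx.1 y hy.1 z hz.1 (h1.trans_le (min_le_left _ _)) (h2.trans_le (min_le_left _ _))
      (h3.trans_le (min_le_left _ _))
    have h5 := hbB x hx.2 y hy.2 z hz.2 (h1.trans_le (min_le_right _ _)) (h2.trans_le (min_le_right _ _))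
      (h3.trans_le (min_le_right _ _))
    show (bA y z - bB y z) - (bA x z - bB x z) + (bA x y - bB x y) = 0
    linear_combination h5 - h4)
  -- the integral lifts
  obtain ⟨βB, hβB⟩ : ∃ β : E → E → ℤ, ∀ x y, (β x y : ZMod 2) = bB x y := ⟨fun x y => ((bB x y).val : ℤ), fun x y => cast34 _⟩
  obtain ⟨βA, hβA, hβA'⟩ : ∃ β : E → E → ℤ, (∀ x y, (β x y : ZMod 2) = bA x y - (g y - g x)) ∧
      ∀ x ∈ A ∩ B, ∀ y ∈ A ∩ B, dist x y < ε₂ → β x y = βB x y + e' x y := by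
    refine ⟨fun x y => if x ∈ A ∩ B ∧ y ∈ A ∩ B ∧ dist x y < ε₂ then βB x y + e' x y else
      ((bA x y - (g y - g x)).val : ℤ), ?_, ?_⟩
    · intro x y
      by_cases h : x ∈ A ∩ B ∧ y ∈ A ∩ B ∧ dist x y < ε₂
      · simp only [if_pos h]
        have h1 := hg x h.1 y h.2.1 h.2.2
        simp only at h1
        push_cast
        rw [hβB]
        linear_combination -h1
      · simp only [if_neg h]
        exact cast34 _
    · intro x hx y hy hxy
      exact if_pos ⟨hx, hy, hxy⟩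
  -- the cocycle on `A` and on `B`
  obtain ⟨ε, hε⟩ : ∃ ε, ε = min (min εA εB) (min ε₂ δ₀) := ⟨_, rfl⟩
  have hε0 : 0 < ε := by
    rw [hε]
    exact lt_min (lt_min hεA hεB) (lt_min hε₂ hδ₀)
  have hεA' : ε ≤ εA := hε ▸ (min_le_left _ _).trans (min_le_left _ _)
  have hεB' : ε ≤ εB := hε ▸ (min_le_left _ _).trans (min_le_right _ _)
  have hε₂' : ε ≤ ε₂ := hε ▸ (min_le_right _ _).trans (min_le_left _ _)
  have hεδ : ε ≤ δ₀ := hε ▸ (min_le_right _ _).trans (min_le_right _ _)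
  obtain ⟨c', hcA, hcB⟩ : ∃ c' : E → E → E → ℤ,
      (∀ x ∈ A, ∀ y ∈ A, ∀ z ∈ A, c' x y z = βA y z - βA x z + βA x y) ∧
      ∀ x ∈ B, ∀ y ∈ B, ∀ z ∈ B, dist x y < ε → dist x z < ε → dist y z < ε → c' x y z = βB y z - βB x z + βB x y := by
    refine ⟨fun x y z => if x ∈ A ∧ y ∈ A ∧ z ∈ A then βA y z - βA x z + βA x y else βB y z - βB x z + βB x y, ?_, ?_⟩
    · intro x hx y hy z hz
      exact if_pos ⟨hx, hy, hz⟩
    · intro x hx y hy z hz h1 h2 h3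
      by_cases h : x ∈ A ∧ y ∈ A ∧ z ∈ A
      · simp only [if_pos h]
        obtain ⟨h4, h5, h6⟩ := h
        have h7 := he' x ⟨h4, hx⟩ y ⟨h5, hy⟩ z ⟨h6, hz⟩ (h1.trans_le hε₂') (h2.trans_le hε₂') (h3.trans_le hε₂')
        rw [hβA' y ⟨h5, hy⟩ z ⟨h6, hz⟩ (h3.trans_le hε₂'), hβA' x ⟨h4, hx⟩ z ⟨h6, hz⟩ (h2.trans_le hε₂'),
          hβA' x ⟨h4, hx⟩ y ⟨h5, hy⟩ (h1.trans_le hε₂')]
        linear_combination h7
      · simp only [if_neg h]
  -- the map `r`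
  obtain ⟨r, δ, hδ, hrA, hrB, hrd, hrT⟩ := retr34 A B hA hB (η := ε / 4) (by linarith)
  obtain ⟨ρ, hρ⟩ : ∃ ρ, ρ = min δ (ε / 2) := ⟨_, rfl⟩
  have hρ0 : 0 < ρ := by
    rw [hρ]
    exact lt_min hδ (by linarith)
  have hρδ : ρ ≤ δ := hρ ▸ min_le_left _ _
  have hρε : ρ ≤ ε / 2 := hρ ▸ min_le_right _ _
  have hrr : ∀ x y, dist x y < ρ → dist (r x) (r y) < ε := by
    intro x y hxy
    have h1 := dist_triangle (r x) x (r y)
    have h2 := dist_triangle x y (r y)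
    have h3 := hrd x
    have h4 := hrd y
    rw [dist_comm] at h3
    linarith
  have hr1 : ∀ x y, dist x y < ρ → dist (r x) y < ε := by
    intro x y hxy
    have h1 := dist_triangle (r x) x y
    have h3 := hrd x
    rw [dist_comm] at h3
    linarith
  have hrU : ∀ x ∈ A ∪ B, r x ∈ A ∪ B := fun x hx => hx.elim (fun h => .inl (hrA x h)) (fun h => .inr (hrB x h))
  obtain ⟨h, hh⟩ := prism2_34 (A ∪ B) (A ∪ B) r (fun x => x) ρ δ₀ hρ0 hrU (fun x hx => hx)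
    (fun x _ y _ hxy => (hrr x y hxy).trans_le hεδ) (fun x _ y _ hxy => by
      have : dist x y < δ₀ := by linarith
      exact this) (fun x _ y _ hxy => (hr1 x y hxy).trans_le hεδ) c hc
  have hsym : ∀ x y : E, dist x y < δ → dist y x < δ := fun x y h => by rwa [dist_comm]
  have hrefl : ∀ x : E, dist x x < δ := fun x => by rwa [dist_self]
  refine ⟨fun x y z => c' (r x) (r y) (r z), h, ρ, hρ0, ?_, ?_⟩
  · intro x hx y hy z hz w hw h1 h2 h3 h4 h5 h6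
    show c' (r y) (r z) (r w) - c' (r x) (r z) (r w) + c' (r x) (r y) (r w) - c' (r x) (r y) (r z) = 0
    rcases hrT {x, y, z, w} (s4_34 hx hy hz hw) (r4_34 (P := fun x y => dist x y < δ) hsym hrefl (h1.trans_le hρδ)
      (h2.trans_le hρδ) (h3.trans_le hρδ) (h4.trans_le hρδ) (h5.trans_le hρδ) (h6.trans_le hρδ)) with hT | hT
    · have hx' := hT x (by simp)
      have hy' := hT y (by simp)
      have hz' := hT z (by simp)
      have hw' := hT w (by simp)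
      rw [hcA _ hy' _ hz' _ hw', hcA _ hx' _ hz' _ hw', hcA _ hx' _ hy' _ hw', hcA _ hx' _ hy' _ hz']
      ring
    · have hx' := hT x (by simp)
      have hy' := hT y (by simp)
      have hz' := hT z (by simp)
      have hw' := hT w (by simp)
      rw [hcB _ hy' _ hz' _ hw' (hrr _ _ h4) (hrr _ _ h5) (hrr _ _ h6),
        hcB _ hx' _ hz' _ hw' (hrr _ _ h2) (hrr _ _ h3) (hrr _ _ h6),
        hcB _ hx' _ hy' _ hw' (hrr _ _ h1) (hrr _ _ h3) (hrr _ _ h5),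
        hcB _ hx' _ hy' _ hz' (hrr _ _ h1) (hrr _ _ h2) (hrr _ _ h4)]
      ring
  · intro x hx y hy z hz h1 h2 h3
    have h4 := hh x hx y hy z hz h1 h2 h3
    simp only at h4
    rw [h4]
    congr 1
    show c (r x) (r y) (r z) = (c' (r x) (r y) (r z) : ZMod 2)
    rcases hrT {x, y, z} (s3_34 hx hy hz) (r3_34 (P := fun x y => dist x y < δ) hsym hrefl (h1.trans_le hρδ)
      (h2.trans_le hρδ) (h3.trans_le hρδ)) with hT | hT
    · have hx' := hT x (by simp)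
      have hy' := hT y (by simp)
      have hz' := hT z (by simp)
      rw [hcA _ hx' _ hy' _ hz', hbA _ hx' _ hy' _ hz' ((hrr _ _ h1).trans_le hεA') ((hrr _ _ h2).trans_le hεA')
        ((hrr _ _ h3).trans_le hεA')]
      push_cast
      rw [hβA, hβA, hβA]
      ring
    · have hx' := hT x (by simp)
      have hy' := hT y (by simp)
      have hz' := hT z (by simp)
      rw [hcB _ hx' _ hy' _ hz' (hrr _ _ h1) (hrr _ _ h2) (hrr _ _ h3),
        hbB _ hx' _ hy' _ hz' ((hrr _ _ h1).trans_le hεB') ((hrr _ _ h2).trans_le hεB') ((hrr _ _ h3).trans_le hεB')]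
      push_cast
      rw [hβB, hβB, hβB]
      ring

theorem lift1_union {E : Type} [MetricSpace E] (A B : Set E) (hA : IsCompact A)
    (hB : IsCompact B) (vA : Van1 A) (vB : Van1 B) : Lift1 (A ∪ B) := by
  classical
  intro c δ₀ hδ₀ hc
  obtain ⟨gA, εA, hεA, hgA⟩ := vA c δ₀ hδ₀ fun x hx y hy z hz => hc x (.inl hx) y (.inl hy) z (.inl hz)
  obtain ⟨gB, εB, hεB, hgB⟩ := vB c δ₀ hδ₀ fun x hx y hy z hz => hc x (.inr hx) y (.inr hy) z (.inr hz)
  obtain ⟨ε, hε⟩ : ∃ ε, ε = min (min εA εB) δ₀ := ⟨_, rfl⟩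
  have hε0 : 0 < ε := by
    rw [hε]
    exact lt_min (lt_min hεA hεB) hδ₀
  have hεA' : ε ≤ εA := hε ▸ (min_le_left _ _).trans (min_le_left _ _)
  have hεB' : ε ≤ εB := hε ▸ (min_le_left _ _).trans (min_le_right _ _)
  have hεδ : ε ≤ δ₀ := hε ▸ (min_le_right _ _)
  obtain ⟨γB, hγB⟩ : ∃ γ : E → ℤ, ∀ x, (γ x : ZMod 2) = gB x := ⟨fun x => ((gB x).val : ℤ), fun x => cast34 _⟩
  obtain ⟨γA, hγA, hγA'⟩ : ∃ γ : E → ℤ, (∀ x, (γ x : ZMod 2) = gA x) ∧
      ∀ x, γ x = γB x + ((gA x - gB x).val : ℤ) := by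
    refine ⟨fun x => γB x + ((gA x - gB x).val : ℤ), fun x => ?_, fun x => rfl⟩
    rw [Int.cast_add, hγB, cast34]
    ring
  obtain ⟨c', hcA, hcB⟩ : ∃ c' : E → E → ℤ,
      (∀ x ∈ A, ∀ y ∈ A, c' x y = γA y - γA x) ∧
      ∀ x ∈ B, ∀ y ∈ B, dist x y < ε → c' x y = γB y - γB x := by
    refine ⟨fun x y => if x ∈ A ∧ y ∈ A then γA y - γA x else γB y - γB x, ?_, ?_⟩
    · intro x hx y hy
      exact if_pos ⟨hx, hy⟩
    · intro x hx y hy h1
      by_cases h : x ∈ A ∧ y ∈ A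
      · simp only [if_pos h]
        obtain ⟨h4, h5⟩ := h
        have h7 := hgA x h4 y h5 (h1.trans_le hεA')
        have h8 := hgB x hx y hy (h1.trans_le hεB')
        have h9 : gA y - gB y = gA x - gB x := by
          rw [h8] at h7
          linear_combination -h7
        rw [hγA', hγA', h9]
        ring
      · simp only [if_neg h]
  obtain ⟨r, δ, hδ, hrA, hrB, hrd, hrT⟩ := retr34 A B hA hB (η := ε / 4) (by linarith)
  obtain ⟨ρ, hρ⟩ : ∃ ρ, ρ = min δ (ε / 2) := ⟨_, rfl⟩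
  have hρ0 : 0 < ρ := by
    rw [hρ]
    exact lt_min hδ (by linarith)
  have hρδ : ρ ≤ δ := hρ ▸ min_le_left _ _
  have hρε : ρ ≤ ε / 2 := hρ ▸ min_le_right _ _
  have hrr : ∀ x y, dist x y < ρ → dist (r x) (r y) < ε := by
    intro x y hxy
    have h1 := dist_triangle (r x) x (r y)
    have h2 := dist_triangle x y (r y)
    have h3 := hrd x
    have h4 := hrd y
    rw [dist_comm] at h3
    linarith
  have hr1 : ∀ x y, dist x y < ρ → dist (r x) y < ε := by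
    intro x y hxy
    have h1 := dist_triangle (r x) x y
    have h3 := hrd x
    rw [dist_comm] at h3
    linarith
  have hrU : ∀ x ∈ A ∪ B, r x ∈ A ∪ B := fun x hx => hx.elim (fun h => .inl (hrA x h)) (fun h => .inr (hrB x h))
  obtain ⟨h, hh⟩ := prism1_34 (A ∪ B) (A ∪ B) r (fun x => x) ρ δ₀ hρ0 hrU (fun x hx => hx)
    (fun x _ y _ hxy => (hrr x y hxy).trans_le hεδ) (fun x _ y _ hxy => by
      have : dist x y < δ₀ := by linarith
      exact this) (fun x _ y _ hxy => (hr1 x y hxy).trans_le hεδ) c hc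
  have hsym : ∀ x y : E, dist x y < δ → dist y x < δ := fun x y h => by rwa [dist_comm]
  have hrefl : ∀ x : E, dist x x < δ := fun x => by rwa [dist_self]
  refine ⟨fun x y => c' (r x) (r y), h, ρ, hρ0, ?_, ?_⟩
  · intro x hx y hy z hz h1 h2 h3
    show c' (r y) (r z) - c' (r x) (r z) + c' (r x) (r y) = 0
    rcases hrT {x, y, z} (s3_34 hx hy hz) (r3_34 (P := fun x y => dist x y < δ) hsym hrefl (h1.trans_le hρδ)
      (h2.trans_le hρδ) (h3.trans_le hρδ)) with hT | hT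
    · have hx' := hT x (by simp)
      have hy' := hT y (by simp)
      have hz' := hT z (by simp)
      rw [hcA _ hy' _ hz', hcA _ hx' _ hz', hcA _ hx' _ hy']
      ring
    · have hx' := hT x (by simp)
      have hy' := hT y (by simp)
      have hz' := hT z (by simp)
      rw [hcB _ hy' _ hz' (hrr _ _ h3), hcB _ hx' _ hz' (hrr _ _ h2), hcB _ hx' _ hy' (hrr _ _ h1)]
      ring
  · intro x hx y hy h1
    have h4 := hh x hx y hy h1
    simp only at h4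
    rw [h4]
    congr 1
    show c (r x) (r y) = (c' (r x) (r y) : ZMod 2)
    rcases hrT {x, y, y} (s3_34 hx hy hy) (r3_34 (P := fun x y => dist x y < δ) hsym hrefl (h1.trans_le hρδ)
      (h1.trans_le hρδ) (hrefl y)) with hT | hT
    · have hx' := hT x (by simp)
      have hy' := hT y (by simp)
      rw [hcA _ hx' _ hy', hgA _ hx' _ hy' ((hrr _ _ h1).trans_le hεA')]
      push_cast
      rw [hγA, hγA]
      ring
    · have hx' := hT x (by simp)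
      have hy' := hT y (by simp)
      rw [hcB _ hx' _ hy' (hrr _ _ h1), hgB _ hx' _ hy' ((hrr _ _ h1).trans_le hεB')]
      push_cast
      rw [hγB, hγB]
      ring

private theorem sep34 {E : Type} [MetricSpace E] (A B : Set E) (hA : IsCompact A)
    (hB : IsCompact B) (hAB : Disjoint A B) : ∃ δ : ℝ, 0 < δ ∧ ∀ x ∈ A ∪ B, ∀ y ∈ A ∪ B, dist x y < δ →
      (x ∈ A ∧ y ∈ A) ∨ (x ∈ B ∧ y ∈ B ∧ x ∉ A ∧ y ∉ A) := by
  obtain ⟨δ, hδ, h⟩ := cpt34 A B hA hB one_pos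
  have hn : ∀ x ∈ B, x ∉ A := fun x hx hxA => Set.disjoint_left.1 hAB hxA hx
  refine ⟨δ, hδ, ?_⟩
  rintro x (hx | hx) y (hy | hy) hxy
  · exact .inl ⟨hx, hy⟩
  · obtain ⟨z, hz, -⟩ := h x hx y hy hxy
    exact absurd hz.1 (hn z hz.2)
  · obtain ⟨z, hz, -⟩ := h y hy x hx (by rwa [dist_comm])
    exact absurd hz.1 (hn z hz.2)
  · exact .inr ⟨hx, hy, hn x hx, hn y hy⟩

theorem van2_disj {E : Type} [MetricSpace E] (A B : Set E) (hA : IsCompact A)
    (hB : IsCompact B) (hAB : Disjoint A B) (vA : Van2 A) (vB : Van2 B) : Van2 (A ∪ B) := by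
  classical
  intro c δ₀ hδ₀ hc
  obtain ⟨bA, εA, hεA, hbA⟩ := vA c δ₀ hδ₀ fun x hx y hy z hz w hw => hc x (.inl hx) y (.inl hy) z (.inl hz) w (.inl hw)
  obtain ⟨bB, εB, hεB, hbB⟩ := vB c δ₀ hδ₀ fun x hx y hy z hz w hw => hc x (.inr hx) y (.inr hy) z (.inr hz) w (.inr hw)
  obtain ⟨δ, hδ, hs⟩ := sep34 A B hA hB hAB
  refine ⟨fun x y => if x ∈ A then bA x y else bB x y, min (min εA εB) δ, lt_min (lt_min hεA hεB) hδ, ?_⟩
  intro x hx y hy z hz h1 h2 h3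
  have hl : min (min εA εB) δ ≤ εA := (min_le_left _ _).trans (min_le_left _ _)
  have hl' : min (min εA εB) δ ≤ εB := (min_le_left _ _).trans (min_le_right _ _)
  have hl'' : min (min εA εB) δ ≤ δ := min_le_right _ _
  rcases hs x hx y hy (h1.trans_le hl'') with ⟨hxA, hyA⟩ | ⟨hxB, hyB, hxA, hyA⟩
  · rcases hs x hx z hz (h2.trans_le hl'') with ⟨-, hzA⟩ | ⟨-, -, hxA', -⟩
    · simp only [if_pos hxA, if_pos hyA]
      exact hbA x hxA y hyA z hzA (h1.trans_le hl) (h2.trans_le hl) (h3.trans_le hl)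
    · exact absurd hxA hxA'
  · rcases hs x hx z hz (h2.trans_le hl'') with ⟨hxA', -⟩ | ⟨-, hzB, -, hzA⟩
    · exact absurd hxA' hxA
    · simp only [if_neg hxA, if_neg hyA]
      exact hbB x hxB y hyB z hzB (h1.trans_le hl') (h2.trans_le hl') (h3.trans_le hl')

theorem lift1_disj {E : Type} [MetricSpace E] (A B : Set E) (hA : IsCompact A)
    (hB : IsCompact B) (hAB : Disjoint A B) (lA : Lift1 A) (lB : Lift1 B) :
    Lift1 (A ∪ B) := by
  classical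
  intro c δ₀ hδ₀ hc
  obtain ⟨cA, gA, εA, hεA, hcA, hgA⟩ := lA c δ₀ hδ₀ fun x hx y hy z hz => hc x (.inl hx) y (.inl hy) z (.inl hz)
  obtain ⟨cB, gB, εB, hεB, hcB, hgB⟩ := lB c δ₀ hδ₀ fun x hx y hy z hz => hc x (.inr hx) y (.inr hy) z (.inr hz)
  obtain ⟨δ, hδ, hs⟩ := sep34 A B hA hB hAB
  have hl : min (min εA εB) δ ≤ εA := (min_le_left _ _).trans (min_le_left _ _)
  have hl' : min (min εA εB) δ ≤ εB := (min_le_left _ _).trans (min_le_right _ _)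
  have hl'' : min (min εA εB) δ ≤ δ := min_le_right _ _
  refine ⟨fun x y => if x ∈ A then cA x y else cB x y, fun x => if x ∈ A then gA x else gB x, min (min εA εB) δ,
    lt_min (lt_min hεA hεB) hδ, ?_, ?_⟩
  · intro x hx y hy z hz h1 h2 h3
    rcases hs x hx y hy (h1.trans_le hl'') with ⟨hxA, hyA⟩ | ⟨hxB, hyB, hxA, hyA⟩
    · rcases hs x hx z hz (h2.trans_le hl'') with ⟨-, hzA⟩ | ⟨-, -, hxA', -⟩
      · simp only [if_pos hxA, if_pos hyA]
        exact hcA x hxA y hyA z hzA (h1.trans_le hl) (h2.trans_le hl) (h3.trans_le hl)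
      · exact absurd hxA hxA'
    · rcases hs x hx z hz (h2.trans_le hl'') with ⟨hxA', -⟩ | ⟨-, hzB, -, hzA⟩
      · exact absurd hxA' hxA
      · simp only [if_neg hxA, if_neg hyA]
        exact hcB x hxB y hyB z hzB (h1.trans_le hl') (h2.trans_le hl') (h3.trans_le hl')
  · intro x hx y hy h1
    rcases hs x hx y hy (h1.trans_le hl'') with ⟨hxA, hyA⟩ | ⟨hxB, hyB, hxA, hyA⟩
    · simp only [if_pos hxA, if_pos hyA]
      exact hgA x hxA y hyA (h1.trans_le hl)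
    · simp only [if_neg hxA, if_neg hyA]
      exact hgB x hxB y hyB (h1.trans_le hl')

theorem van2_image {E E' : Type} [MetricSpace E] [MetricSpace E'] (S : Set E) (i : E → E')
    (q : E' → E) (hq : ∀ x ∈ S, q (i x) = x) (hd : ∀ x ∈ S, ∀ y ∈ S, dist (i x) (i y) = dist x y)
    (v : Van2 S) : Van2 (i '' S) := by
  intro c δ hδ hc
  obtain ⟨b, ε, hε, hb⟩ := v (fun x y z => c (i x) (i y) (i z)) δ hδ (by
    intro x hx y hy z hz w hw h1 h2 h3 h4 h5 h6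
    exact hc (i x) ⟨x, hx, rfl⟩ (i y) ⟨y, hy, rfl⟩ (i z) ⟨z, hz, rfl⟩ (i w) ⟨w, hw, rfl⟩ (by rwa [hd x hx y hy])
      (by rwa [hd x hx z hz]) (by rwa [hd x hx w hw]) (by rwa [hd y hy z hz]) (by rwa [hd y hy w hw])
      (by rwa [hd z hz w hw]))
  refine ⟨fun x y => b (q x) (q y), ε, hε, ?_⟩
  rintro _ ⟨x, hx, rfl⟩ _ ⟨y, hy, rfl⟩ _ ⟨z, hz, rfl⟩ h1 h2 h3
  rw [hd x hx y hy] at h1
  rw [hd x hx z hz] at h2
  rw [hd y hy z hz] at h3
  simp only [hq x hx, hq y hy, hq z hz]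
  exact hb x hx y hy z hz h1 h2 h3

theorem lift1_image {E E' : Type} [MetricSpace E] [MetricSpace E'] (S : Set E) (i : E → E')
    (q : E' → E) (hq : ∀ x ∈ S, q (i x) = x) (hd : ∀ x ∈ S, ∀ y ∈ S, dist (i x) (i y) = dist x y)
    (v : Lift1 S) : Lift1 (i '' S) := by
  intro c δ hδ hc
  obtain ⟨c', g, ε, hε, hc', hg⟩ := v (fun x y => c (i x) (i y)) δ hδ (by
    intro x hx y hy z hz h1 h2 h3
    exact hc (i x) ⟨x, hx, rfl⟩ (i y) ⟨y, hy, rfl⟩ (i z) ⟨z, hz, rfl⟩ (by rwa [hd x hx y hy])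
      (by rwa [hd x hx z hz]) (by rwa [hd y hy z hz]))
  refine ⟨fun x y => c' (q x) (q y), fun x => g (q x), ε, hε, ?_, ?_⟩
  · rintro _ ⟨x, hx, rfl⟩ _ ⟨y, hy, rfl⟩ _ ⟨z, hz, rfl⟩ h1 h2 h3
    rw [hd x hx y hy] at h1
    rw [hd x hx z hz] at h2
    rw [hd y hy z hz] at h3
    simp only [hq x hx, hq y hy, hq z hz]
    exact hc' x hx y hy z hz h1 h2 h3
  · rintro _ ⟨x, hx, rfl⟩ _ ⟨y, hy, rfl⟩ h1
    rw [hd x hx y hy] at h1
    simp only [hq x hx, hq y hy]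
    exact hg x hx y hy h1

theorem lift2_subtype {E : Type} [MetricSpace E] (S : Set E) :
    Lift2 (Set.univ : Set S) ↔ Lift2 S := by
  classical
  rcases S.eq_empty_or_nonempty with hS | ⟨p, hp⟩
  · constructor
    · intro _ c δ _ _
      refine ⟨fun _ _ _ => 0, fun _ _ => 0, 1, one_pos, ?_, ?_⟩
      · intro x hx
        rw [hS] at hx
        exact absurd hx (notMem_empty x)
      · intro x hx
        rw [hS] at hx
        exact absurd hx (notMem_empty x)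
    · intro _ c δ _ _
      refine ⟨fun _ _ _ => 0, fun _ _ => 0, 1, one_pos, ?_, ?_⟩
      · rintro ⟨x, hx⟩
        rw [hS] at hx
        exact absurd hx (notMem_empty x)
      · rintro ⟨x, hx⟩
        rw [hS] at hx
        exact absurd hx (notMem_empty x)
  obtain ⟨q, hq⟩ : ∃ q : E → S, ∀ x : S, q x = x :=
    ⟨fun x => if hx : x ∈ S then ⟨x, hx⟩ else ⟨p, hp⟩, fun x => dif_pos x.2⟩
  constructor
  · intro l c δ hδ hc
    obtain ⟨c', b, ε, hε, hc', hb⟩ := l (fun x y z => c x y z) δ hδ (by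
      intro x _ y _ z _ w _ h1 h2 h3 h4 h5 h6
      exact hc x x.2 y y.2 z z.2 w w.2 h1 h2 h3 h4 h5 h6)
    refine ⟨fun x y z => c' (q x) (q y) (q z), fun x y => b (q x) (q y), ε, hε, ?_, ?_⟩
    · intro x hx y hy z hz w hw h1 h2 h3 h4 h5 h6
      have e1 := hq ⟨x, hx⟩
      have e2 := hq ⟨y, hy⟩
      have e3 := hq ⟨z, hz⟩
      have e4 := hq ⟨w, hw⟩
      simp only at e1 e2 e3 e4
      simp only [e1, e2, e3, e4]
      exact hc' ⟨x, hx⟩ (mem_univ _) ⟨y, hy⟩ (mem_univ _) ⟨z, hz⟩ (mem_univ _) ⟨w, hw⟩ (mem_univ _) h1 h2 h3 h4 h5 h6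
    · intro x hx y hy z hz h1 h2 h3
      have e1 := hq ⟨x, hx⟩
      have e2 := hq ⟨y, hy⟩
      have e3 := hq ⟨z, hz⟩
      simp only at e1 e2 e3
      simp only [e1, e2, e3]
      exact hb ⟨x, hx⟩ (mem_univ _) ⟨y, hy⟩ (mem_univ _) ⟨z, hz⟩ (mem_univ _) h1 h2 h3
  · intro l c δ hδ hc
    obtain ⟨c', b, ε, hε, hc', hb⟩ := l (fun x y z => c (q x) (q y) (q z)) δ hδ (by
      intro x hx y hy z hz w hw h1 h2 h3 h4 h5 h6
      have e1 := hq ⟨x, hx⟩
      have e2 := hq ⟨y, hy⟩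
      have e3 := hq ⟨z, hz⟩
      have e4 := hq ⟨w, hw⟩
      simp only at e1 e2 e3 e4
      simp only [e1, e2, e3, e4]
      exact hc ⟨x, hx⟩ (mem_univ _) ⟨y, hy⟩ (mem_univ _) ⟨z, hz⟩ (mem_univ _) ⟨w, hw⟩ (mem_univ _) h1 h2 h3 h4 h5 h6)
    refine ⟨fun x y z => c' x y z, fun x y => b x y, ε, hε, ?_, ?_⟩
    · intro x _ y _ z _ w _ h1 h2 h3 h4 h5 h6
      exact hc' x x.2 y y.2 z z.2 w w.2 h1 h2 h3 h4 h5 h6
    · intro x _ y _ z _ h1 h2 h3
      have h4 := hb x x.2 y y.2 z z.2 h1 h2 h3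
      simp only [hq] at h4
      exact h4

end Pool.Helper85.SG
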