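import Pool.Agent.Helper85.SG.Defs

/-!
From small cochains on the realization of an order complex to simplicial cochains, by grids.
-/

set_option autoImplicit false
set_option linter.unusedSectionVars false

namespace Pool.Helper85.SG

open Set

/-! ### Telescoping -/

private theorem tel2_6 {A : Type} [AddCommGroup A] (U W : ℕ → ℕ → A) (n : ℕ) :
    ∑ i ∈ Finset.range n, ∑ j ∈ Finset.range n,
      ((U i j - U i (j + 1)) + (W (i + 1) j - W i j)) =
    ∑ i ∈ Finset.range n, (U i 0 - U i n) + ∑ j ∈ Finset.range n, (W n j - W 0 j) := by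
  simp only [Finset.sum_add_distrib]
  congr 1
  · exact Finset.sum_congr rfl fun i _ => Finset.sum_range_sub' (fun j => U i j) n
  · rw [Finset.sum_comm]
    exact Finset.sum_congr rfl fun j _ => Finset.sum_range_sub (fun i => W i j) n

private theorem tel3_6 {M : Type} [AddCommGroup M] (A B C : ℕ → ℕ → ℕ → M) (n : ℕ)
    (h : ∀ i < n, ∀ j < n, ∀ k < n, (A (i + 1) j k - A i j k) - (B i (j + 1) k - B i j k) +
      (C i j (k + 1) - C i j k) = 0) :
    ∑ j ∈ Finset.range n, ∑ k ∈ Finset.range n, (A n j k - A 0 j k) -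
    ∑ i ∈ Finset.range n, ∑ k ∈ Finset.range n, (B i n k - B i 0 k) +
    ∑ i ∈ Finset.range n, ∑ j ∈ Finset.range n, (C i j n - C i j 0) = 0 := by
  have h0 : ∑ i ∈ Finset.range n, ∑ j ∈ Finset.range n, ∑ k ∈ Finset.range n,
      ((A (i + 1) j k - A i j k) - (B i (j + 1) k - B i j k) +
      (C i j (k + 1) - C i j k)) = 0 := by
    refine Finset.sum_eq_zero fun i hi => Finset.sum_eq_zero fun j hj =>
      Finset.sum_eq_zero fun k hk => ?_
    exact h i (Finset.mem_range.1 hi) j (Finset.mem_range.1 hj) k (Finset.mem_range.1 hk)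
  rw [← h0]
  simp only [Finset.sum_add_distrib, Finset.sum_sub_distrib]
  have e1 : ∀ D : ℕ → ℕ → ℕ → M, ∑ i ∈ Finset.range n, ∑ j ∈ Finset.range n,
      ∑ k ∈ Finset.range n, D i j k = ∑ j ∈ Finset.range n, ∑ k ∈ Finset.range n,
      ∑ i ∈ Finset.range n, D i j k := by
    intro D
    rw [Finset.sum_comm]
    exact Finset.sum_congr rfl fun j _ => Finset.sum_comm
  have e2 : ∀ D : ℕ → ℕ → ℕ → M, ∑ i ∈ Finset.range n, ∑ j ∈ Finset.range n,
      ∑ k ∈ Finset.range n, D i j k = ∑ i ∈ Finset.range n, ∑ k ∈ Finset.range n,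
      ∑ j ∈ Finset.range n, D i j k := by
    intro D
    exact Finset.sum_congr rfl fun j _ => Finset.sum_comm
  have fA : ∑ i ∈ Finset.range n, ∑ j ∈ Finset.range n, ∑ k ∈ Finset.range n, A (i + 1) j k -
      ∑ i ∈ Finset.range n, ∑ j ∈ Finset.range n, ∑ k ∈ Finset.range n, A i j k =
      ∑ j ∈ Finset.range n, ∑ k ∈ Finset.range n, A n j k -
      ∑ j ∈ Finset.range n, ∑ k ∈ Finset.range n, A 0 j k := by
    rw [e1 (fun i j k => A (i + 1) j k), e1 (fun i j k => A i j k)]
    simp only [← Finset.sum_sub_distrib]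
    exact Finset.sum_congr rfl fun j _ => Finset.sum_congr rfl fun k _ =>
      Finset.sum_range_sub (fun i => A i j k) n
  have fB : ∑ i ∈ Finset.range n, ∑ j ∈ Finset.range n, ∑ k ∈ Finset.range n, B i (j + 1) k -
      ∑ i ∈ Finset.range n, ∑ j ∈ Finset.range n, ∑ k ∈ Finset.range n, B i j k =
      ∑ i ∈ Finset.range n, ∑ k ∈ Finset.range n, B i n k -
      ∑ i ∈ Finset.range n, ∑ k ∈ Finset.range n, B i 0 k := by
    rw [e2 (fun i j k => B i (j + 1) k), e2 (fun i j k => B i j k)]
    simp only [← Finset.sum_sub_distrib]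
    exact Finset.sum_congr rfl fun i _ => Finset.sum_congr rfl fun k _ =>
      Finset.sum_range_sub (fun j => B i j k) n
  have fC : ∑ i ∈ Finset.range n, ∑ j ∈ Finset.range n, ∑ k ∈ Finset.range n, C i j (k + 1) -
      ∑ i ∈ Finset.range n, ∑ j ∈ Finset.range n, ∑ k ∈ Finset.range n, C i j k =
      ∑ i ∈ Finset.range n, ∑ j ∈ Finset.range n, C i j n -
      ∑ i ∈ Finset.range n, ∑ j ∈ Finset.range n, C i j 0 := by
    simp only [← Finset.sum_sub_distrib]
    exact Finset.sum_congr rfl fun i _ => Finset.sum_congr rfl fun j _ =>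
      Finset.sum_range_sub (fun k => C i j k) n
  rw [fA, fB, fC]

/-! ### Points of the realization -/

/-- a point of the segment from `x` to `y` -/
private def lin6 {P : Type} (x y : P → ℝ) (t : ℝ) : P → ℝ := fun p => (1 - t) * x p + t * y p

open Classical in
/-- a vertex -/
private noncomputable def v6 {P : Type} (a : P) : P → ℝ := fun p => if p = a then 1 else 0

private theorem v6_self {P : Type} (a : P) : v6 a a = 1 := by simp [v6]

private theorem v6_ne {P : Type} {a p : P} (h : p ≠ a) : v6 a p = 0 := by simp [v6, h]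

private theorem lin6_zero {P : Type} (x y : P → ℝ) : lin6 x y 0 = x := by
  funext p; simp [lin6]

private theorem lin6_one {P : Type} (x y : P → ℝ) : lin6 x y 1 = y := by
  funext p; simp [lin6]

/-- the function `f` is a convex combination of the vertices in `V` -/
private def In6 {P : Type} [Fintype P] (V : Set P) (f : P → ℝ) : Prop :=
  (∀ p, 0 ≤ f p) ∧ (∀ p, f p ≠ 0 → p ∈ V) ∧ ∑ p, f p = 1

section

variable {P : Type} [Fintype P]

private theorem In6.le_one {V : Set P} {f : P → ℝ} (h : In6 V f) (p : P) : f p ≤ 1 := by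
  rw [← h.2.2]
  exact Finset.single_le_sum (f := f) (fun q _ => h.1 q) (Finset.mem_univ p)

private theorem In6.mono {V W : Set P} {f : P → ℝ} (h : In6 V f) (hVW : V ⊆ W) : In6 W f :=
  ⟨h.1, fun p hp => hVW (h.2.1 p hp), h.2.2⟩

private theorem in6_v {V : Set P} {a : P} (ha : a ∈ V) : In6 V (v6 a) := by
  classical
  refine ⟨fun p => ?_, fun p hp => ?_, ?_⟩
  · by_cases h : p = a
    · rw [h, v6_self]; norm_num
    · rw [v6_ne h]
  · by_cases h : p = a
    · rw [h]; exact ha
    · exact absurd (v6_ne h) hp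
  · rw [Finset.sum_eq_single a (fun p _ hp => v6_ne hp) (fun h => absurd (Finset.mem_univ a) h),
      v6_self]

private theorem in6_lin {V : Set P} {x y : P → ℝ} (hx : In6 V x) (hy : In6 V y) {t : ℝ}
    (h0 : 0 ≤ t) (h1 : t ≤ 1) : In6 V (lin6 x y t) := by
  refine ⟨fun p => ?_, fun p hp => ?_, ?_⟩
  · exact add_nonneg (mul_nonneg (by linarith) (hx.1 p)) (mul_nonneg h0 (hy.1 p))
  · by_cases h : x p = 0
    · refine hy.2.1 p fun h' => hp ?_
      simp [lin6, h, h']
    · exact hx.2.1 p h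
  · simp only [lin6, Finset.sum_add_distrib, ← Finset.mul_sum, hx.2.2, hy.2.2]
    ring

private theorem dist_lin6 {V : Set P} {x y y' : P → ℝ} (hx : In6 V x) (hy : In6 V y) {t t' : ℝ}
    (h0 : 0 ≤ t') (h1 : t' ≤ 1) :
    dist (lin6 x y t) (lin6 x y' t') ≤ |t - t'| + dist y y' := by
  refine (dist_pi_le_iff (by positivity)).2 fun p => ?_
  rw [Real.dist_eq]
  have e : lin6 x y t p - lin6 x y' t' p = (t - t') * (y p - x p) + t' * (y p - y' p) := by
    simp only [lin6]; ring
  rw [e]
  refine (abs_add_le _ _).trans (add_le_add ?_ ?_)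
  · rw [abs_mul]
    refine mul_le_of_le_one_right (abs_nonneg _) (abs_le.2 ⟨?_, ?_⟩)
    · linarith [hx.le_one p, hy.1 p]
    · linarith [hx.1 p, hy.le_one p]
  · rw [abs_mul, abs_of_nonneg h0]
    calc t' * |y p - y' p| ≤ 1 * |y p - y' p| := mul_le_mul_of_nonneg_right h1 (abs_nonneg _)
      _ = dist (y p) (y' p) := by rw [one_mul, Real.dist_eq]
      _ ≤ dist y y' := dist_le_pi_dist y y' p

end

section

variable {P : Type} [PartialOrder P] [Fintype P]

private theorem in6_XR {S V : Set P} (hV : V ⊆ S) (hc : ∀ a ∈ V, ∀ b ∈ V, Cp a b) {f : P → ℝ}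
    (h : In6 V f) : f ∈ XR S := by
  refine ⟨h.1, fun p hp => hV (h.2.1 p hp), fun p hp q hq _ => ?_, ?_⟩
  · exact hc p (h.2.1 p hp) q (h.2.1 q hq)
  · rw [finsum_eq_sum_of_fintype]; exact h.2.2

private theorem XR_in6 {S : Set P} {f : P → ℝ} (h : f ∈ XR S) : In6 {p | f p ≠ 0} f := by
  refine ⟨h.1, fun p hp => hp, ?_⟩
  rw [← finsum_eq_sum_of_fintype]; exact h.2.2.2

theorem isCompact_XR {P : Type} [PartialOrder P] [Fintype P] (S : Set P) :
    IsCompact (XR S) := by
  have hK : IsCompact (Set.pi Set.univ (fun _ : P => Icc (0 : ℝ) 1)) :=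
    isCompact_univ_pi fun _ => isCompact_Icc
  refine hK.of_isClosed_subset ?_ ?_
  · have e : XR S = {f : P → ℝ | ∀ p, 0 ≤ f p} ∩ ({f | ∀ p, p ∉ S → f p = 0} ∩
        ({f | ∀ p q, ¬ Cp p q → f p * f q = 0} ∩ {f | ∑ p, f p = 1})) := by
      ext f
      constructor
      · rintro ⟨h1, h2, h3, h4⟩
        refine ⟨h1, fun p hp => ?_, fun p q hpq => ?_, ?_⟩
        · by_contra h
          exact hp (h2 p h)
        · by_contra h
          have hp : f p ≠ 0 := fun h' => h (by rw [h', zero_mul])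
          have hq : f q ≠ 0 := fun h' => h (by rw [h', mul_zero])
          have hne : p ≠ q := fun h' => hpq (by rw [h']; exact Or.inl le_rfl)
          exact hpq (h3 hp hq hne)
        · rw [finsum_eq_sum_of_fintype] at h4
          exact h4
      · rintro ⟨h1, h2, h3, h4⟩
        refine ⟨h1, fun p hp => ?_, fun p hp q hq _ => ?_, ?_⟩
        · by_contra h
          exact hp (h2 p h)
        · by_contra h
          exact mul_ne_zero hp hq (h3 p q h)
        · rw [finsum_eq_sum_of_fintype]; exact h4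
    rw [e]
    refine IsClosed.inter ?_ (IsClosed.inter ?_ (IsClosed.inter ?_ ?_))
    · simp only [ofPred_forall]
      exact isClosed_iInter fun p => isClosed_le continuous_const (continuous_apply p)
    · simp only [ofPred_forall]
      exact isClosed_iInter fun p => isClosed_iInter fun _ =>
        isClosed_eq (continuous_apply p) continuous_const
    · simp only [ofPred_forall]
      exact isClosed_iInter fun p => isClosed_iInter fun q => isClosed_iInter fun _ =>
        isClosed_eq ((continuous_apply p).mul (continuous_apply q)) continuous_const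
    · exact isClosed_eq (continuous_finsetSum _ fun p _ => continuous_apply p) continuous_const
  · intro f hf p _
    exact ⟨hf.1 p, (XR_in6 hf).le_one p⟩

/-! ### The vertex with the largest weight -/

/-- a vertex at which `f` is maximal -/
private noncomputable def r6 [Nonempty P] (f : P → ℝ) : P := (Finite.exists_max f).choose

private theorem r6_max [Nonempty P] (f : P → ℝ) (p : P) : f p ≤ f (r6 f) :=
  (Finite.exists_max f).choose_spec p

private theorem r6_ge [Nonempty P] {V : Set P} {f : P → ℝ} (h : In6 V f) :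
    1 / (Fintype.card P : ℝ) ≤ f (r6 f) := by
  have hc : (0 : ℝ) < Fintype.card P := by exact_mod_cast Fintype.card_pos
  rw [div_le_iff₀ hc, ← h.2.2, mul_comm]
  calc ∑ p, f p ≤ ∑ _p : P, f (r6 f) := Finset.sum_le_sum fun p _ => r6_max f p
    _ = Fintype.card P * f (r6 f) := by simp

private theorem r6_mem [Nonempty P] {V : Set P} {f : P → ℝ} (h : In6 V f) : r6 f ∈ V := by
  have hc : (0 : ℝ) < Fintype.card P := by exact_mod_cast Fintype.card_pos
  refine h.2.1 _ (ne_of_gt ?_)
  exact lt_of_lt_of_le (by positivity) (r6_ge h)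

private theorem r6_v [Nonempty P] (a : P) : r6 (v6 a) = a := by
  have := r6_mem (in6_v (mem_singleton a))
  exact this

private theorem r6_cp [Nonempty P] {S : Set P} {f g : P → ℝ} (hf : f ∈ XR S) (hg : g ∈ XR S)
    (h : dist f g < 1 / (Fintype.card P : ℝ)) : Cp (r6 f) (r6 g) := by
  have h1 := r6_ge (XR_in6 hg)
  have h2 : f (r6 g) ≠ 0 := by
    have h3 := (dist_le_pi_dist f g (r6 g)).trans_lt h
    rw [Real.dist_eq] at h3
    have h4 := (abs_lt.1 h3).1
    intro h5
    rw [h5] at h4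
    linarith
  have h3 : f (r6 f) ≠ 0 := r6_mem (XR_in6 hf)
  by_cases e : r6 f = r6 g
  · rw [e]; exact Or.inl le_rfl
  · exact hf.2.2.1 h3 h2 e

private theorem r6_S [Nonempty P] {S : Set P} {f : P → ℝ} (hf : f ∈ XR S) : r6 f ∈ S :=
  hf.2.1 _ (r6_mem (XR_in6 hf))

private theorem coc_r6 [Nonempty P] {A : Type} [AddCommGroup A] {S : Set P} {k : P → P → P → A}
    (hk : SCoc S k) :
    Coc2 (XR S) (1 / (Fintype.card P : ℝ)) (fun x y z => k (r6 x) (r6 y) (r6 z)) := by
  intro x hx y hy z hz w hw h1 h2 h3 h4 h5 h6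
  exact hk _ (r6_S hx) _ (r6_S hy) _ (r6_S hz) _ (r6_S hw) (r6_cp hx hy h1) (r6_cp hx hz h2)
    (r6_cp hx hw h3) (r6_cp hy hz h4) (r6_cp hy hw h5) (r6_cp hz hw h6)

/-! ### Normalisation -/

private theorem norm6 {E : Type} [MetricSpace E] (S : Set E) (c : E → E → E → ZMod 2)
    (c' : E → E → E → ℤ) (b : E → E → ZMod 2) (ε : ℝ) (hε : 0 < ε) (h1 : Coc2 S ε c')
    (h2 : Coh2 S ε c (fun x y z => (c' x y z : ZMod 2)) b) :
    ∃ (c'' : E → E → E → ℤ) (b' : E → E → ZMod 2), Coc2 S ε c'' ∧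
      Coh2 S ε c (fun x y z => (c'' x y z : ZMod 2)) b' ∧
      (∀ x ∈ S, ∀ y ∈ S, dist x y < ε → c'' x x y = 0) ∧
      (∀ x ∈ S, ∀ y ∈ S, dist x y < ε → c'' x y y = 0) := by
  refine ⟨fun x y z => c' x y z - c' y y y, fun x y => b x y + (c' x x x : ZMod 2),
    ?_, ?_, ?_, ?_⟩
  · intro x hx y hy z hz w hw a1 a2 a3 a4 a5 a6
    have := h1 x hx y hy z hz w hw a1 a2 a3 a4 a5 a6
    simp only
    linarith
  · intro x hx y hy z hz a1 a2 a3
    have := h2 x hx y hy z hz a1 a2 a3
    simp only at this ⊢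
    rw [this]
    push_cast
    ring
  · intro x hx y hy h
    have hs : dist x x < ε := by rw [dist_self]; exact hε
    have := h1 x hx x hx x hx y hy hs hs h hs h h
    simp only
    linarith
  · intro x hx y hy h
    have hs : dist y y < ε := by rw [dist_self]; exact hε
    have := h1 x hx y hy y hy y hy h h h hs hs hs
    simp only
    linarith

/-! ### The grid -/

/-- grid points of the cube -/
private noncomputable def F6 (n : ℕ) (a b c d : P) (i j k : ℕ) : P → ℝ :=
  lin6 (v6 a) (lin6 (v6 b) (lin6 (v6 c) (v6 d) (k / n)) (j / n)) (i / n)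

/-- grid points of the triangle -/
private noncomputable def T6 (n : ℕ) (a b c : P) (i j : ℕ) : P → ℝ :=
  lin6 (v6 a) (lin6 (v6 b) (v6 c) (j / n)) (i / n)

/-- grid points of the edge -/
private noncomputable def E6 (n : ℕ) (a b : P) (i : ℕ) : P → ℝ :=
  lin6 (v6 a) (v6 b) (i / n)

private theorem frac6 {n i : ℕ} (h : i ≤ n) : (0 : ℝ) ≤ (i : ℝ) / n ∧ (i : ℝ) / n ≤ 1 := by
  refine ⟨by positivity, ?_⟩
  rcases Nat.eq_zero_or_pos n with h0 | h0
  · subst h0; simp
  · rw [div_le_one (by exact_mod_cast h0)]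
    exact_mod_cast h

private theorem step6 {n i i' : ℕ} (h : i' ≤ i + 1) (h' : i ≤ i' + 1) :
    |(i : ℝ) / n - (i' : ℝ) / n| ≤ 1 / n := by
  rw [← sub_div, abs_div, Nat.abs_cast]
  refine div_le_div_of_nonneg_right ?_ (Nat.cast_nonneg n)
  have h1 : (i' : ℝ) ≤ i + 1 := by exact_mod_cast h
  have h2 : (i : ℝ) ≤ i' + 1 := by exact_mod_cast h'
  exact abs_le.2 ⟨by linarith, by linarith⟩

private theorem F6_in {V : Set P} {n : ℕ} {a b c d : P} (ha : a ∈ V) (hb : b ∈ V) (hc : c ∈ V)
    (hd : d ∈ V) {i j k : ℕ} (hi : i ≤ n) (hj : j ≤ n) (hk : k ≤ n) :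
    In6 V (F6 n a b c d i j k) :=
  in6_lin (in6_v ha) (in6_lin (in6_v hb) (in6_lin (in6_v hc) (in6_v hd)
    (frac6 hk).1 (frac6 hk).2) (frac6 hj).1 (frac6 hj).2) (frac6 hi).1 (frac6 hi).2

private theorem T6_in {V : Set P} {n : ℕ} {a b c : P} (ha : a ∈ V) (hb : b ∈ V) (hc : c ∈ V)
    {i j : ℕ} (hi : i ≤ n) (hj : j ≤ n) : In6 V (T6 n a b c i j) :=
  in6_lin (in6_v ha) (in6_lin (in6_v hb) (in6_v hc) (frac6 hj).1 (frac6 hj).2)
    (frac6 hi).1 (frac6 hi).2

private theorem E6_in {V : Set P} {n : ℕ} {a b : P} (ha : a ∈ V) (hb : b ∈ V)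
    {i : ℕ} (hi : i ≤ n) : In6 V (E6 n a b i) :=
  in6_lin (in6_v ha) (in6_v hb) (frac6 hi).1 (frac6 hi).2

private theorem F6_dist {n : ℕ} {a b c d : P} {i j k i' j' k' : ℕ}
    (hj : j ≤ n) (hk : k ≤ n)
    (hi' : i' ≤ n) (hj' : j' ≤ n) (hk' : k' ≤ n)
    (h1 : i' ≤ i + 1) (h2 : i ≤ i' + 1) (h3 : j' ≤ j + 1) (h4 : j ≤ j' + 1)
    (h5 : k' ≤ k + 1) (h6 : k ≤ k' + 1) :
    dist (F6 n a b c d i j k) (F6 n a b c d i' j' k') ≤ 3 / n := by
  have A : ∀ p : P, p ∈ (univ : Set P) := fun p => mem_univ p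
  have a1 := dist_lin6 (in6_v (A a)) (in6_lin (in6_v (A b)) (in6_lin (in6_v (A c)) (in6_v (A d))
    (frac6 hk).1 (frac6 hk).2) (frac6 hj).1 (frac6 hj).2) (t := (i : ℝ) / n)
    (y' := lin6 (v6 b) (lin6 (v6 c) (v6 d) (k' / n)) (j' / n)) (frac6 hi').1 (frac6 hi').2
  have a2 := dist_lin6 (in6_v (A b)) (in6_lin (in6_v (A c)) (in6_v (A d))
    (frac6 hk).1 (frac6 hk).2) (t := (j : ℝ) / n)
    (y' := lin6 (v6 c) (v6 d) (k' / n)) (frac6 hj').1 (frac6 hj').2
  have a3 := dist_lin6 (in6_v (A c)) (in6_v (A d)) (t := (k : ℝ) / n)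
    (y' := v6 d) (frac6 hk').1 (frac6 hk').2
  rw [dist_self] at a3
  have b1 := step6 (n := n) h1 h2
  have b2 := step6 (n := n) h3 h4
  have b3 := step6 (n := n) h5 h6
  have : (3 : ℝ) / n = 1 / n + (1 / n + 1 / n) := by ring
  unfold F6
  linarith

private theorem T6_dist {n : ℕ} {a b c : P} {i j i' j' : ℕ} (hj : j ≤ n)
    (hi' : i' ≤ n) (hj' : j' ≤ n)
    (h1 : i' ≤ i + 1) (h2 : i ≤ i' + 1) (h3 : j' ≤ j + 1) (h4 : j ≤ j' + 1) :
    dist (T6 n a b c i j) (T6 n a b c i' j') ≤ 3 / n := by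
  have A : ∀ p : P, p ∈ (univ : Set P) := fun p => mem_univ p
  have a1 := dist_lin6 (in6_v (A a)) (in6_lin (in6_v (A b)) (in6_v (A c))
    (frac6 hj).1 (frac6 hj).2) (t := (i : ℝ) / n)
    (y' := lin6 (v6 b) (v6 c) (j' / n)) (frac6 hi').1 (frac6 hi').2
  have a2 := dist_lin6 (in6_v (A b)) (in6_v (A c)) (t := (j : ℝ) / n)
    (y' := v6 c) (frac6 hj').1 (frac6 hj').2
  rw [dist_self] at a2
  have b1 := step6 (n := n) h1 h2
  have b2 := step6 (n := n) h3 h4
  have b3 : (0 : ℝ) ≤ 1 / n := by positivity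
  have : (3 : ℝ) / n = 1 / n + (1 / n + 1 / n) := by ring
  unfold T6
  linarith

/-- the integral cochain -/
private noncomputable def K6 (n : ℕ) {A : Type} [AddCommGroup A]
    (c : (P → ℝ) → (P → ℝ) → (P → ℝ) → A) (u v w : P) : A :=
  ∑ i ∈ Finset.range n, ∑ j ∈ Finset.range n,
    (c (T6 n u v w i j) (T6 n u v w (i + 1) j) (T6 n u v w (i + 1) (j + 1)) -
      c (T6 n u v w i j) (T6 n u v w i (j + 1)) (T6 n u v w (i + 1) (j + 1)))

private theorem K6_coc {S : Set P} {n : ℕ} (hn : 0 < n) {ε : ℝ} (hε : 3 / (n : ℝ) < ε)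
    (c : (P → ℝ) → (P → ℝ) → (P → ℝ) → ℤ) (hc : Coc2 (XR S) ε c)
    (hc1 : ∀ x ∈ XR S, ∀ y ∈ XR S, dist x y < ε → c x x y = 0)
    (hc2 : ∀ x ∈ XR S, ∀ y ∈ XR S, dist x y < ε → c x y y = 0) :
    SCoc S (K6 n c) := by
  intro v₀ m₀ v₁ m₁ v₂ m₂ v₃ m₃ h01 h02 h03 h12 h13 h23
  have hn' : (n : ℝ) ≠ 0 := by exact_mod_cast hn.ne'
  set V : Set P := {v₀, v₁, v₂, v₃} with hV
  have hVS : V ⊆ S := by
    intro p hp
    simp only [hV, mem_insert_iff, mem_singleton_iff] at hp
    rcases hp with h | h | h | h <;> rw [h] <;> assumption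
  have hVc : ∀ a ∈ V, ∀ b ∈ V, Cp a b := by
    have sy : ∀ a b : P, Cp a b → Cp b a := fun a b h => h.symm
    have re : ∀ a : P, Cp a a := fun a => Or.inl le_rfl
    intro a ha b hb
    simp only [hV, mem_insert_iff, mem_singleton_iff] at ha hb
    rcases ha with h | h | h | h <;> rcases hb with h' | h' | h' | h' <;> rw [h, h'] <;>
      first | assumption | exact re _ | (apply sy; assumption)
  have M0 : v₀ ∈ V := by simp [hV]
  have M1 : v₁ ∈ V := by simp [hV]
  have M2 : v₂ ∈ V := by simp [hV]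
  have M3 : v₃ ∈ V := by simp [hV]
  set x : ℕ → ℕ → ℕ → (P → ℝ) := F6 n v₀ v₁ v₂ v₃ with hx
  have xm : ∀ {i j k : ℕ}, i ≤ n → j ≤ n → k ≤ n → x i j k ∈ XR S := fun hi hj hk =>
    in6_XR hVS hVc (F6_in M0 M1 M2 M3 hi hj hk)
  have xd : ∀ {i j k i' j' k' : ℕ}, j ≤ n → k ≤ n → i' ≤ n → j' ≤ n → k' ≤ n →
      i' ≤ i + 1 → i ≤ i' + 1 → j' ≤ j + 1 → j ≤ j' + 1 → k' ≤ k + 1 → k ≤ k' + 1 →
      dist (x i j k) (x i' j' k') < ε :=
    fun hj hk hi' hj' hk' h1 h2 h3 h4 h5 h6 =>
      (F6_dist hj hk hi' hj' hk' h1 h2 h3 h4 h5 h6).trans_lt hε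
  have hnn : (n : ℝ) / n = 1 := div_self hn'
  have fs1 : ∀ j k, x n j k = T6 n v₁ v₂ v₃ j k := by
    intro j k
    simp only [hx, F6, T6, hnn, lin6_one]
  have fs0 : ∀ j k, x 0 j k = v6 v₀ := by
    intro j k
    simp only [hx, F6, Nat.cast_zero, zero_div, lin6_zero]
  have ft1 : ∀ i k, x i n k = T6 n v₀ v₂ v₃ i k := by
    intro i k
    simp only [hx, F6, T6, hnn, lin6_one]
  have ft0 : ∀ i k, x i 0 k = E6 n v₀ v₁ i := by
    intro i k
    simp only [hx, F6, E6, Nat.cast_zero, zero_div, lin6_zero]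
  have fu1 : ∀ i j, x i j n = T6 n v₀ v₁ v₃ i j := by
    intro i j
    simp only [hx, F6, T6, hnn, lin6_one]
  have fu0 : ∀ i j, x i j 0 = T6 n v₀ v₁ v₂ i j := by
    intro i j
    simp only [hx, F6, T6, Nat.cast_zero, zero_div, lin6_zero]
  have key := tel3_6
    (fun i j k => c (x i j k) (x i (j + 1) k) (x i (j + 1) (k + 1)) -
      c (x i j k) (x i j (k + 1)) (x i (j + 1) (k + 1)))
    (fun i j k => c (x i j k) (x (i + 1) j k) (x (i + 1) j (k + 1)) -
      c (x i j k) (x i j (k + 1)) (x (i + 1) j (k + 1)))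
    (fun i j k => c (x i j k) (x (i + 1) j k) (x (i + 1) (j + 1) k) -
      c (x i j k) (x i (j + 1) k) (x (i + 1) (j + 1) k)) n ?_
  · have z1 : ∑ j ∈ Finset.range n, ∑ k ∈ Finset.range n,
        ((c (x n j k) (x n (j + 1) k) (x n (j + 1) (k + 1)) -
          c (x n j k) (x n j (k + 1)) (x n (j + 1) (k + 1))) -
        (c (x 0 j k) (x 0 (j + 1) k) (x 0 (j + 1) (k + 1)) -
          c (x 0 j k) (x 0 j (k + 1)) (x 0 (j + 1) (k + 1)))) = K6 n c v₁ v₂ v₃ := by
      unfold K6
      refine Finset.sum_congr rfl fun j _ => Finset.sum_congr rfl fun k _ => ?_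
      simp only [fs0, fs1, sub_self, sub_zero]
    have z2 : ∑ i ∈ Finset.range n, ∑ k ∈ Finset.range n,
        ((c (x i n k) (x (i + 1) n k) (x (i + 1) n (k + 1)) -
          c (x i n k) (x i n (k + 1)) (x (i + 1) n (k + 1))) -
        (c (x i 0 k) (x (i + 1) 0 k) (x (i + 1) 0 (k + 1)) -
          c (x i 0 k) (x i 0 (k + 1)) (x (i + 1) 0 (k + 1)))) = K6 n c v₀ v₂ v₃ := by
      unfold K6
      refine Finset.sum_congr rfl fun i hi => Finset.sum_congr rfl fun k _ => ?_
      have hi := Finset.mem_range.1 hi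
      have d0 : dist (E6 n v₀ v₁ i) (E6 n v₀ v₁ (i + 1)) < ε := by
        rw [← ft0 i 0, ← ft0 (i + 1) 0]
        exact xd (by omega) (by omega) (by omega) (by omega) (by omega) (by omega) (by omega)
          (by omega) (by omega) (by omega) (by omega)
      have m0 : E6 n v₀ v₁ i ∈ XR S := by
        rw [← ft0 i 0]; exact xm (by omega) (by omega) (by omega)
      have m1 : E6 n v₀ v₁ (i + 1) ∈ XR S := by
        rw [← ft0 (i + 1) 0]; exact xm (by omega) (by omega) (by omega)
      simp only [ft0, ft1, hc1 _ m0 _ m1 d0, hc2 _ m0 _ m1 d0, sub_self, sub_zero]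
    have z3 : ∑ i ∈ Finset.range n, ∑ j ∈ Finset.range n,
        ((c (x i j n) (x (i + 1) j n) (x (i + 1) (j + 1) n) -
          c (x i j n) (x i (j + 1) n) (x (i + 1) (j + 1) n)) -
        (c (x i j 0) (x (i + 1) j 0) (x (i + 1) (j + 1) 0) -
          c (x i j 0) (x i (j + 1) 0) (x (i + 1) (j + 1) 0))) =
        K6 n c v₀ v₁ v₃ - K6 n c v₀ v₁ v₂ := by
      unfold K6
      simp only [← Finset.sum_sub_distrib]
      refine Finset.sum_congr rfl fun i _ => Finset.sum_congr rfl fun j _ => ?_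
      simp only [fu0, fu1]
    rw [z1, z2, z3] at key
    linarith
  · intro i hi j hj k hk
    have T : ∀ a b a' b' a'' b'' : ℕ, a ≤ 1 → b ≤ 1 → a' ≤ 1 → b' ≤ 1 → a'' ≤ 1 → b'' ≤ 1 →
        dist (x (i + a) (j + a') (k + a'')) (x (i + b) (j + b') (k + b'')) < ε := by
      intro a b a' b' a'' b'' _ _ _ _ _ _
      exact xd (by omega) (by omega) (by omega) (by omega) (by omega) (by omega) (by omega)
          (by omega) (by omega) (by omega) (by omega)
    have m : ∀ a a' a'' : ℕ, a ≤ 1 → a' ≤ 1 → a'' ≤ 1 →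
        x (i + a) (j + a') (k + a'') ∈ XR S := by
      intro a a' a'' _ _ _
      exact xm (by omega) (by omega) (by omega)
    have tet : ∀ a a' a'' b b' b'' : ℕ, a ≤ 1 → a' ≤ 1 → a'' ≤ 1 → b ≤ 1 → b' ≤ 1 → b'' ≤ 1 →
        c (x (i + a) (j + a') (k + a'')) (x (i + b) (j + b') (k + b''))
          (x (i + 1) (j + 1) (k + 1)) -
        c (x (i + 0) (j + 0) (k + 0)) (x (i + b) (j + b') (k + b''))
          (x (i + 1) (j + 1) (k + 1)) +
        c (x (i + 0) (j + 0) (k + 0)) (x (i + a) (j + a') (k + a''))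
          (x (i + 1) (j + 1) (k + 1)) -
        c (x (i + 0) (j + 0) (k + 0)) (x (i + a) (j + a') (k + a''))
          (x (i + b) (j + b') (k + b'')) = 0 := by
      intro a a' a'' b b' b'' h1 h2 h3 h4 h5 h6
      exact hc _ (m 0 0 0 (by omega) (by omega) (by omega)) _ (m a a' a'' h1 h2 h3)
        _ (m b b' b'' h4 h5 h6) _ (m 1 1 1 (by omega) (by omega) (by omega))
        (T _ _ _ _ _ _ (by omega) (by omega) (by omega) (by omega) (by omega) (by omega))
        (T _ _ _ _ _ _ (by omega) (by omega) (by omega) (by omega) (by omega) (by omega))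
        (T _ _ _ _ _ _ (by omega) (by omega) (by omega) (by omega) (by omega) (by omega))
        (T _ _ _ _ _ _ (by omega) (by omega) (by omega) (by omega) (by omega) (by omega))
        (T _ _ _ _ _ _ (by omega) (by omega) (by omega) (by omega) (by omega) (by omega))
        (T _ _ _ _ _ _ (by omega) (by omega) (by omega) (by omega) (by omega) (by omega))
    have t1 := tet 1 0 0 1 1 0 (by omega) (by omega) (by omega) (by omega) (by omega) (by omega)
    have t2 := tet 1 0 0 1 0 1 (by omega) (by omega) (by omega) (by omega) (by omega) (by omega)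
    have t3 := tet 0 1 0 1 1 0 (by omega) (by omega) (by omega) (by omega) (by omega) (by omega)
    have t4 := tet 0 1 0 0 1 1 (by omega) (by omega) (by omega) (by omega) (by omega) (by omega)
    have t5 := tet 0 0 1 1 0 1 (by omega) (by omega) (by omega) (by omega) (by omega) (by omega)
    have t6 := tet 0 0 1 0 1 1 (by omega) (by omega) (by omega) (by omega) (by omega) (by omega)
    simp only [add_zero] at t1 t2 t3 t4 t5 t6
    linarith

private theorem ab6 {A : Type} [AddCommGroup A] (p q r s t : A) :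
    (p - q + r) - (s - q + t) = (r - s) + (p - t) := by abel

/-- sums of a 1-cochain over the boundary of the grid -/
private theorem bd6 {A : Type} [AddCommGroup A] (n : ℕ) (hn : 0 < n)
    (b : (P → ℝ) → (P → ℝ) → A) (u v w : P) :
    K6 n (fun x y z => b y z - b x z + b x y) u v w =
      (∑ i ∈ Finset.range n, b (E6 n u v i) (E6 n u v (i + 1)) -
        ∑ i ∈ Finset.range n, b (E6 n u w i) (E6 n u w (i + 1))) +
      (∑ i ∈ Finset.range n, b (E6 n v w i) (E6 n v w (i + 1)) - n • b (v6 u) (v6 u)) := by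
  have hn' : (n : ℝ) ≠ 0 := by exact_mod_cast hn.ne'
  have hnn : (n : ℝ) / n = 1 := div_self hn'
  have e1 : ∀ i, T6 n u v w i 0 = E6 n u v i := by
    intro i
    simp only [T6, E6, Nat.cast_zero, zero_div, lin6_zero]
  have e2 : ∀ i, T6 n u v w i n = E6 n u w i := by
    intro i
    simp only [T6, E6, hnn, lin6_one]
  have e3 : ∀ j, T6 n u v w n j = E6 n v w j := by
    intro i
    simp only [T6, E6, hnn, lin6_one]
  have e4 : ∀ j, T6 n u v w 0 j = v6 u := by
    intro i
    simp only [T6, Nat.cast_zero, zero_div, lin6_zero]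
  have key := tel2_6 (fun i j => b (T6 n u v w i j) (T6 n u v w (i + 1) j))
    (fun i j => b (T6 n u v w i j) (T6 n u v w i (j + 1))) n
  simp only [e1, e2, e3, e4, Finset.sum_sub_distrib, Finset.sum_const, Finset.card_range] at key
  rw [← key]
  unfold K6
  exact Finset.sum_congr rfl fun i _ => Finset.sum_congr rfl fun j _ => ab6 _ _ _ _ _

theorem grid {P : Type} [PartialOrder P] [Fintype P] (S : Set P) (hX : Lift2 (XR S))
    (k : P → P → P → ZMod 2) (hk : SCoc S k) (hn : Nrm k) : SLift S k := by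
  rcases isEmpty_or_nonempty P with hP | hP
  · refine ⟨fun _ _ _ => 0, fun _ _ => 0, fun a => hP.elim a, fun a => hP.elim a⟩
  have hcard : (0 : ℝ) < 1 / (Fintype.card P : ℝ) := by
    have : (0 : ℝ) < Fintype.card P := by exact_mod_cast Fintype.card_pos
    positivity
  obtain ⟨c₀, b₀, ε, hε, h1, h2⟩ := hX _ _ hcard (coc_r6 hk)
  obtain ⟨c, b, hc, hcb, hn1, hn2⟩ := norm6 (XR S) _ c₀ b₀ ε hε h1 h2
  obtain ⟨n, hn3⟩ := exists_nat_gt (3 / ε)
  have hn0 : 0 < n := by
    have : (0 : ℝ) < n := lt_of_le_of_lt (by positivity) hn3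
    exact_mod_cast this
  have hn0' : (0 : ℝ) < n := by exact_mod_cast hn0
  have hnε : 3 / (n : ℝ) < ε := by
    rw [div_lt_iff₀ hn0']
    rw [div_lt_iff₀ hε] at hn3
    linarith
  refine ⟨K6 n c, fun v w => ∑ i ∈ Finset.range n, b (E6 n v w i) (E6 n v w (i + 1)),
    K6_coc hn0 hnε c hc hn1 hn2, ?_⟩
  intro u mu v mv w mw huv huw hvw
  set V : Set P := {u, v, w} with hV
  have hVS : V ⊆ S := by
    intro p hp
    simp only [hV, mem_insert_iff, mem_singleton_iff] at hp
    rcases hp with h | h | h <;> rw [h] <;> assumption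
  have hVc : ∀ a ∈ V, ∀ b ∈ V, Cp a b := by
    have sy : ∀ a b : P, Cp a b → Cp b a := fun a b h => h.symm
    have re : ∀ a : P, Cp a a := fun a => Or.inl le_rfl
    intro a ha b hb
    simp only [hV, mem_insert_iff, mem_singleton_iff] at ha hb
    rcases ha with h | h | h <;> rcases hb with h' | h' | h' <;> rw [h, h'] <;>
      first | assumption | exact re _ | (apply sy; assumption)
  have M0 : u ∈ V := by simp [hV]
  have M1 : v ∈ V := by simp [hV]
  have M2 : w ∈ V := by simp [hV]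
  -- the diagonal values of `b` vanish
  have hbd : ∀ a ∈ S, b (v6 a) (v6 a) = 0 := by
    intro a ha
    have hm : v6 a ∈ XR S := in6_XR (V := {a}) (by
      intro p hp
      rw [mem_singleton_iff] at hp
      rw [hp]; exact ha) (by
      intro p hp q hq
      rw [mem_singleton_iff] at hp hq
      rw [hp, hq]; exact Or.inl le_rfl) (in6_v (mem_singleton a))
    have hs : dist (v6 a) (v6 a) < ε := by rw [dist_self]; exact hε
    have e := hcb _ hm _ hm _ hm hs hs hs
    simp only [r6_v, (hn a a).1, hn1 _ hm _ hm hs] at e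
    simpa using e.symm
  -- the sum of the given cocycle over the grid
  have Kk : K6 n (fun x y z => k (r6 x) (r6 y) (r6 z)) u v w = k u v w := by
    have hl : ∀ x y z, In6 V x → In6 V y → In6 V z → k (r6 x) (r6 y) (r6 z) =
        k u (r6 y) (r6 z) - k u (r6 x) (r6 z) + k u (r6 x) (r6 y) := by
      intro x y z hx hy hz
      have a1 := r6_mem hx
      have a2 := r6_mem hy
      have a3 := r6_mem hz
      have := hk u mu _ (hVS a1) _ (hVS a2) _ (hVS a3) (hVc _ M0 _ a1) (hVc _ M0 _ a2)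
        (hVc _ M0 _ a3) (hVc _ a1 _ a2) (hVc _ a1 _ a3) (hVc _ a2 _ a3)
      linear_combination this
    have e0 : K6 n (fun x y z => k (r6 x) (r6 y) (r6 z)) u v w =
        K6 n (fun x y z => k u (r6 y) (r6 z) - k u (r6 x) (r6 z) + k u (r6 x) (r6 y)) u v w := by
      unfold K6
      refine Finset.sum_congr rfl fun i hi => Finset.sum_congr rfl fun j hj => ?_
      have hi := Finset.mem_range.1 hi
      have hj := Finset.mem_range.1 hj
      have tm : ∀ {i j : ℕ}, i ≤ n → j ≤ n → In6 V (T6 n u v w i j) := fun hi hj =>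
        T6_in M0 M1 M2 hi hj
      exact congrArg₂ (· - ·)
        (hl _ _ _ (tm (i := i) (j := j) (by omega) (by omega))
          (tm (i := i + 1) (j := j) (by omega) (by omega))
          (tm (i := i + 1) (j := j + 1) (by omega) (by omega)))
        (hl _ _ _ (tm (i := i) (j := j) (by omega) (by omega))
          (tm (i := i) (j := j + 1) (by omega) (by omega))
          (tm (i := i + 1) (j := j + 1) (by omega) (by omega)))
    rw [e0, bd6 n hn0 (fun x y => k u (r6 x) (r6 y)) u v w]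
    have s1 : ∀ q : P, ∑ i ∈ Finset.range n, k u (r6 (E6 n u q i)) (r6 (E6 n u q (i + 1))) = 0 := by
      intro q
      refine Finset.sum_eq_zero fun i hi => ?_
      have hi := Finset.mem_range.1 hi
      have a1 := r6_mem (E6_in (V := {u, q}) (n := n) (a := u) (b := q) (i := i) (by simp)
        (by simp) (by omega))
      have a2 := r6_mem (E6_in (V := {u, q}) (n := n) (a := u) (b := q) (i := i + 1) (by simp)
        (by simp) (by omega))
      simp only [mem_insert_iff, mem_singleton_iff] at a1 a2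
      rcases a1 with h | h <;> rcases a2 with h' | h' <;> rw [h, h']
      · exact (hn u u).1
      · exact (hn u q).1
      · exact (hn u q).2.2
      · exact (hn u q).2.1
    have s2 : ∑ i ∈ Finset.range n, k u (r6 (E6 n v w i)) (r6 (E6 n v w (i + 1))) = k u v w := by
      have e : ∀ i ∈ Finset.range n, k u (r6 (E6 n v w i)) (r6 (E6 n v w (i + 1))) =
          k u v (r6 (E6 n v w (i + 1))) - k u v (r6 (E6 n v w i)) := by
        intro i hi
        have hi := Finset.mem_range.1 hi
        have a1 := r6_mem (E6_in (V := {v, w}) (n := n) (a := v) (b := w) (i := i) (by simp)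
          (by simp) (by omega))
        have a2 := r6_mem (E6_in (V := {v, w}) (n := n) (a := v) (b := w) (i := i + 1) (by simp)
          (by simp) (by omega))
        have b1 : r6 (E6 n v w i) ∈ V := r6_mem (E6_in M1 M2 (by omega))
        have b2 : r6 (E6 n v w (i + 1)) ∈ V := r6_mem (E6_in M1 M2 (by omega))
        have c1 := hk u mu v mv _ (hVS b1) _ (hVS b2) (hVc _ M0 _ M1) (hVc _ M0 _ b1)
          (hVc _ M0 _ b2) (hVc _ M1 _ b1) (hVc _ M1 _ b2) (hVc _ b1 _ b2)
        have c2 : k v (r6 (E6 n v w i)) (r6 (E6 n v w (i + 1))) = 0 := by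
          simp only [mem_insert_iff, mem_singleton_iff] at a1 a2
          rcases a1 with h | h <;> rcases a2 with h' | h' <;> rw [h, h']
          · exact (hn v v).1
          · exact (hn v w).1
          · exact (hn v w).2.2
          · exact (hn v w).2.1
        rw [c2] at c1
        linear_combination -c1
      rw [Finset.sum_congr rfl e, Finset.sum_range_sub (fun i => k u v (r6 (E6 n v w i)))]
      have f1 : E6 n v w n = v6 w := by
        simp only [E6, div_self hn0'.ne', lin6_one]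
      have f0 : E6 n v w 0 = v6 v := by
        simp only [E6, Nat.cast_zero, zero_div, lin6_zero]
      rw [f1, f0, r6_v, r6_v, (hn u v).2.1, sub_zero]
    simp only [s1, s2, r6_v, (hn u u).1, smul_zero, sub_zero, zero_add]
  -- the sum of the coboundary over the grid
  have Kb := bd6 n hn0 b u v w
  rw [hbd u mu, smul_zero, sub_zero] at Kb
  -- comparison
  have hsum : K6 n (fun x y z => k (r6 x) (r6 y) (r6 z)) u v w =
      ((K6 n c u v w : ℤ) : ZMod 2) + K6 n (fun x y z => b y z - b x z + b x y) u v w := by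
    unfold K6
    push_cast
    rw [← Finset.sum_add_distrib]
    refine Finset.sum_congr rfl fun i hi => ?_
    rw [← Finset.sum_add_distrib]
    refine Finset.sum_congr rfl fun j hj => ?_
    have hi := Finset.mem_range.1 hi
    have hj := Finset.mem_range.1 hj
    have tm : ∀ {i j : ℕ}, i ≤ n → j ≤ n → T6 n u v w i j ∈ XR S := fun hi hj =>
      in6_XR hVS hVc (T6_in M0 M1 M2 hi hj)
    have td : ∀ {i j i' j' : ℕ}, j ≤ n → i' ≤ n → j' ≤ n → i' ≤ i + 1 → i ≤ i' + 1 →
        j' ≤ j + 1 → j ≤ j' + 1 → dist (T6 n u v w i j) (T6 n u v w i' j') < ε :=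
      fun hj hi' hj' h1 h2 h3 h4 => (T6_dist hj hi' hj' h1 h2 h3 h4).trans_lt hnε
    have g1 := hcb _ (tm (i := i) (j := j) (by omega) (by omega))
      _ (tm (i := i + 1) (j := j) (by omega) (by omega))
      _ (tm (i := i + 1) (j := j + 1) (by omega) (by omega))
      (td (by omega) (by omega) (by omega) (by omega) (by omega) (by omega) (by omega))
      (td (by omega) (by omega) (by omega) (by omega) (by omega) (by omega) (by omega))
      (td (by omega) (by omega) (by omega) (by omega) (by omega) (by omega) (by omega))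
    have g2 := hcb _ (tm (i := i) (j := j) (by omega) (by omega))
      _ (tm (i := i) (j := j + 1) (by omega) (by omega))
      _ (tm (i := i + 1) (j := j + 1) (by omega) (by omega))
      (td (by omega) (by omega) (by omega) (by omega) (by omega) (by omega) (by omega))
      (td (by omega) (by omega) (by omega) (by omega) (by omega) (by omega) (by omega))
      (td (by omega) (by omega) (by omega) (by omega) (by omega) (by omega) (by omega))
    simp only at g1 g2
    rw [g1, g2]
    ring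
  rw [← Kk, hsum, Kb]
  ring

end

end Pool.Helper85.SG
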