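import Pool.Agent.Helper85.SG.Defs

/-!
Block I: the permutation group of the disproof of Shareshian's question.

`R` is the sixth power of the symmetric group on `Delta = (Z/2)^10`, the subgroup `Rs s` consists
of the tuples whose coordinates outside `s` fix the origin, and `Omega` is the coset space of the
group of those translation tuples which satisfy one linear equation for every facet.
-/

set_option autoImplicit false

namespace Pool.Helper85.SG

open Equiv

/-- The ten-dimensional space over the field with two elements. -/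
private abbrev Dl31 : Type := Fin 10 → ZMod 2

/-- The group. -/
private abbrev R31 : Type := Fin 6 → Equiv.Perm Dl31

/-- The facets as a function. -/
private def fct31 (i : Fin 10) : Finset (Fin 6) := facets.get (i.cast rfl)

private theorem face_iff31 (s : Finset (Fin 6)) : Face s ↔ ∃ i, s ⊆ fct31 i := by
  constructor
  · rintro ⟨F, hF, hs⟩
    obtain ⟨n, hn⟩ := List.mem_iff_get.mp hF
    have h1 : fct31 (n.cast rfl) = F := hn
    exact ⟨n.cast rfl, by rw [h1]; exact hs⟩
  · rintro ⟨i, hi⟩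
    exact ⟨fct31 i, List.get_mem _ _, hi⟩

private theorem fct_ne31 (i : Fin 10) : ∃ v, v ∉ fct31 i := by
  revert i
  decide

/-- Tuples whose coordinates outside `s` fix the origin. -/
private def Rs31 (s : Finset (Fin 6)) : Subgroup R31 where
  carrier := {r | ∀ v, v ∉ s → r v 0 = 0}
  one_mem' := by
    intro v _
    rfl
  mul_mem' := by
    intro a b ha hb v hv
    show a v (b v 0) = 0
    rw [hb v hv, ha v hv]
  inv_mem' := by
    intro a ha v hv
    show (a v)⁻¹ 0 = 0
    rw [Equiv.Perm.inv_eq_iff_eq]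
    exact (ha v hv).symm

private theorem mem_Rs31 {s : Finset (Fin 6)} {r : R31} :
    r ∈ Rs31 s ↔ ∀ v, v ∉ s → r v 0 = 0 := Iff.rfl

open Classical in
/-- The coordinates whose full symmetric group is in the subgroup. -/
private noncomputable def th31 (R' : Subgroup R31) : Finset (Fin 6) :=
  Finset.univ.filter (fun v => ∀ p : Equiv.Perm Dl31, Pi.mulSingle v p ∈ R')

private theorem mem_th31 {R' : Subgroup R31} {v : Fin 6} :
    v ∈ th31 R' ↔ ∀ p : Equiv.Perm Dl31, Pi.mulSingle v p ∈ R' := by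
  simp [th31]

/-- The group of translations satisfying the facet equations. -/
private def T31 : Subgroup R31 where
  carrier := {r | ∃ x : Fin 6 → Dl31, (∀ i, ∑ v ∈ (fct31 i)ᶜ, x v i = 0) ∧
    ∀ v y, r v y = y + x v}
  one_mem' := ⟨0, by simp, by simp⟩
  mul_mem' := by
    rintro a b ⟨x, hx, ha⟩ ⟨z, hz, hb⟩
    refine ⟨fun v => x v + z v, ?_, ?_⟩
    · intro i
      simp only [Pi.add_apply, Finset.sum_add_distrib, hx i, hz i, add_zero]
    · intro v y
      show a v (b v y) = _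
      rw [hb, ha, add_assoc, add_comm (z v)]
  inv_mem' := by
    rintro a ⟨x, hx, ha⟩
    refine ⟨fun v => - x v, ?_, ?_⟩
    · intro i
      simp only [Pi.neg_apply, Finset.sum_neg_distrib, hx i, neg_zero]
    · intro v y
      show (a v)⁻¹ y = _
      rw [Equiv.Perm.inv_eq_iff_eq, ha]
      simp

private theorem mem_T31 {r : R31} : r ∈ T31 ↔ ∃ x : Fin 6 → Dl31,
    (∀ i, ∑ v ∈ (fct31 i)ᶜ, x v i = 0) ∧ ∀ v y, r v y = y + x v := Iff.rfl

private theorem single_mem_Rs31 {s : Finset (Fin 6)} {v : Fin 6} {p : Equiv.Perm Dl31}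
    (h : v ∈ s ∨ p 0 = 0) : (Pi.mulSingle v p : R31) ∈ Rs31 s := by
  intro w hw
  by_cases hwv : w = v
  · subst hwv
    rw [Pi.mulSingle_eq_same]
    rcases h with h | h
    · exact absurd h hw
    · exact h
  · rw [Pi.mulSingle_eq_of_ne hwv]
    rfl

private theorem th_Rs31 (s : Finset (Fin 6)) : th31 (Rs31 s) = s := by
  ext v
  rw [mem_th31]
  constructor
  · intro h
    by_contra hv
    have h1 := h (Equiv.swap 0 1) v hv
    rw [Pi.mulSingle_eq_same, Equiv.swap_apply_left] at h1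
    exact one_ne_zero h1
  · intro hv p
    exact single_mem_Rs31 (Or.inl hv)

/-- a third point -/
private theorem third31 (d : Dl31) : ∃ f : Dl31, f ≠ 0 ∧ f ≠ d := by
  by_cases h : d = Pi.single 0 1
  · refine ⟨Pi.single 1 1, ?_, ?_⟩
    · intro h1
      have := congrFun h1 1
      simp at this
    · rw [h]
      intro h1
      have := congrFun h1 1
      simp at this
  · refine ⟨Pi.single 0 1, ?_, fun h1 => h h1.symm⟩
    intro h1
    have := congrFun h1 0
    simp at this

private theorem key31 (R' : Subgroup R31) (h0 : Rs31 ∅ ≤ R') (r : R31) (hr : r ∈ R')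
    (v : Fin 6) (hv : r v 0 ≠ 0) : v ∈ th31 R' := by
  -- permutations fixing the origin
  have hA : ∀ q : Equiv.Perm Dl31, q 0 = 0 → (Pi.mulSingle v q : R31) ∈ R' :=
    fun q hq => h0 (single_mem_Rs31 (Or.inr hq))
  -- permutations fixing `d`
  have hB : ∀ q : Equiv.Perm Dl31, q (r v 0) = r v 0 → (Pi.mulSingle v q : R31) ∈ R' := by
    intro q hq
    have h1 : (Pi.mulSingle v ((r v)⁻¹ * q * r v) : R31) ∈ R' := by
      apply hA
      show (r v)⁻¹ (q (r v 0)) = 0
      rw [hq]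
      exact (r v).symm_apply_apply 0
    have h2 : (Pi.mulSingle v q : R31) =
        r * (Pi.mulSingle v ((r v)⁻¹ * q * r v) : R31) * r⁻¹ := by
      funext w
      by_cases hw : w = v
      · subst hw
        simp [mul_assoc]
      · simp [Pi.mulSingle_eq_of_ne hw]
    rw [h2]
    exact R'.mul_mem (R'.mul_mem hr h1) (R'.inv_mem hr)
  rw [mem_th31]
  intro p
  obtain ⟨f, hf0, hfd⟩ := third31 (r v 0)
  by_cases hp : p 0 = 0
  · exact hA p hp
  · have e1 : (Pi.mulSingle v p : R31) = Pi.mulSingle v (Equiv.swap (p 0) f) *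
        (Pi.mulSingle v (Equiv.swap 0 f) *
          Pi.mulSingle v (Equiv.swap 0 f * (Equiv.swap (p 0) f * p))) := by
      rw [← Pi.mulSingle_mul, ← Pi.mulSingle_mul]
      congr 1
      rw [← mul_assoc (Equiv.swap 0 f), Equiv.swap_mul_self, one_mul, ← mul_assoc,
        Equiv.swap_mul_self, one_mul]
    rw [e1]
    refine R'.mul_mem (hA _ ?_) (R'.mul_mem (hB _ ?_) (hA _ ?_))
    · exact Equiv.swap_apply_of_ne_of_ne (Ne.symm hp) hf0.symm
    · exact Equiv.swap_apply_of_ne_of_ne hv hfd.symm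
    · show Equiv.swap 0 f (Equiv.swap (p 0) f (p 0)) = 0
      rw [Equiv.swap_apply_left, Equiv.swap_apply_right]

private theorem Rs_le31 (R' : Subgroup R31) (h0 : Rs31 ∅ ≤ R') : Rs31 (th31 R') ≤ R' := by
  intro r hr
  apply Subgroup.pi_mem_of_mulSingle_mem
  intro v
  by_cases hv : v ∈ th31 R'
  · exact mem_th31.mp hv _
  · exact h0 (single_mem_Rs31 (Or.inr (hr v hv)))

private theorem trans31 (s : Finset (Fin 6)) (hs : ¬ Face s) (r₁ r₂ : R31) :
    ∃ t ∈ T31, r₂ * t * r₁⁻¹ ∈ Rs31 s := by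
  rw [face_iff31] at hs
  push Not at hs
  have h1 : ∀ i, ∃ v, v ∈ s ∧ v ∉ fct31 i := fun i => Finset.not_subset.mp (hs i)
  choose c hc hcf using h1
  -- prescribed values
  let z : Fin 6 → Dl31 := fun v => (r₂ v)⁻¹ 0 - (r₁ v)⁻¹ 0
  let x : Fin 6 → Dl31 := fun v i => if v = c i then
    - ∑ w ∈ (fct31 i)ᶜ.erase (c i), z w i else z v i
  have hx : ∀ i, ∑ v ∈ (fct31 i)ᶜ, x v i = 0 := by
    intro i
    rw [← Finset.add_sum_erase _ _ (Finset.mem_compl.mpr (hcf i))]
    have h2 : ∑ w ∈ (fct31 i)ᶜ.erase (c i), x w i = ∑ w ∈ (fct31 i)ᶜ.erase (c i), z w i := by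
      apply Finset.sum_congr rfl
      intro w hw
      exact if_neg (Finset.ne_of_mem_erase hw)
    rw [h2]
    show (if c i = c i then - ∑ w ∈ (fct31 i)ᶜ.erase (c i), z w i else z (c i) i) + _ = 0
    rw [if_pos rfl]
    exact neg_add_cancel _
  have hxs : ∀ v, v ∉ s → x v = z v := by
    intro v hv
    funext i
    have h2 : v ≠ c i := fun h => hv (h ▸ hc i)
    exact if_neg h2
  let t : R31 := fun v => Equiv.addRight (x v)
  refine ⟨t, mem_T31.mpr ⟨x, hx, fun v y => rfl⟩, ?_⟩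
  intro v hv
  show r₂ v ((r₁ v)⁻¹ 0 + x v) = 0
  rw [hxs v hv]
  show r₂ v ((r₁ v)⁻¹ 0 + ((r₂ v)⁻¹ 0 - (r₁ v)⁻¹ 0)) = 0
  rw [add_sub_cancel]
  exact (r₂ v).apply_symm_apply 0

/-- Block I. -/
theorem grp2 : ∃ (R Ω : Type) (_ : Group R) (_ : Finite R) (_ : MulAction R Ω) (_ : Finite Ω)
    (Rs : Finset (Fin 6) → Subgroup R) (θ : Subgroup R → Finset (Fin 6)) (ω₀ : Ω),
    (∀ R' R'' : Subgroup R, R' ≤ R'' → θ R' ⊆ θ R'') ∧
    (∀ s, θ (Rs s) = s) ∧
    (∀ s s', s ⊆ s' → Rs s ≤ Rs s') ∧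
    (∀ R', Rs ∅ ≤ R' → θ R' = ∅ → R' = Rs ∅) ∧
    (∀ R', Rs ∅ ≤ R' → ¬ Face (θ R') → ∀ ω ω' : Ω, ∃ r ∈ R', r • ω = ω') ∧
    (∀ s, Face s → ∃ ω : Ω, ∀ r ∈ Rs s, r • ω₀ ≠ ω) := by
  refine ⟨R31, R31 ⧸ T31, inferInstance, inferInstance, inferInstance, inferInstance,
    Rs31, th31, ((1 : R31) : R31 ⧸ T31), ?_, th_Rs31, ?_, ?_, ?_, ?_⟩
  · intro R' R'' h v hv
    rw [mem_th31] at hv ⊢
    exact fun p => h (hv p)
  · intro s s' h r hr v hv
    exact hr v (fun hs => hv (h hs))
  · intro R' h0 h1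
    refine le_antisymm ?_ h0
    intro r hr v _
    by_contra h2
    have h3 := key31 R' h0 r hr v h2
    rw [h1] at h3
    exact absurd h3 (Finset.notMem_empty v)
  · intro R' h0 hF ω ω'
    obtain ⟨r₁, rfl⟩ := QuotientGroup.mk_surjective ω
    obtain ⟨r₂, rfl⟩ := QuotientGroup.mk_surjective ω'
    obtain ⟨t, ht, hr⟩ := trans31 (th31 R') hF r₁ r₂
    refine ⟨r₂ * t * r₁⁻¹, Rs_le31 R' h0 hr, ?_⟩
    rw [MulAction.Quotient.smul_mk, smul_eq_mul, inv_mul_cancel_right]
    rw [QuotientGroup.eq]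
    have h4 : (r₂ * t)⁻¹ * r₂ = t⁻¹ := by group
    rw [h4]
    exact T31.inv_mem ht
  · intro s hs
    rw [face_iff31] at hs
    obtain ⟨i, hi⟩ := hs
    obtain ⟨v₀, hv₀⟩ := fct_ne31 i
    let r₂ : R31 := Pi.mulSingle v₀ (Equiv.addRight (Pi.single i 1 : Dl31))
    refine ⟨((r₂ : R31) : R31 ⧸ T31), ?_⟩
    intro r hr h
    rw [MulAction.Quotient.smul_mk, smul_eq_mul, mul_one, QuotientGroup.eq] at h
    obtain ⟨x, hx, hxt⟩ := mem_T31.mp h
    -- the values of `x` outside the facet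
    have h5 : ∀ v, v ∉ fct31 i → r₂ v 0 = x v := by
      intro v hv
      have hvs : v ∉ s := fun h => hv (hi h)
      have h6 : (r v)⁻¹ (r₂ v (- x v)) = 0 := by
        have := hxt v (- x v)
        rw [neg_add_cancel] at this
        exact this
      rw [Equiv.Perm.inv_eq_iff_eq, hr v hvs] at h6
      by_cases hvv : v = v₀
      · subst hvv
        have h7 : r₂ v = Equiv.addRight (Pi.single i 1 : Dl31) := Pi.mulSingle_eq_same _ _
        rw [h7] at h6 ⊢
        simp only [Equiv.coe_addRight] at h6 ⊢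
        rw [zero_add]
        rw [neg_add_eq_zero] at h6
        exact h6.symm
      · have h7 : r₂ v = 1 := Pi.mulSingle_eq_of_ne hvv _
        rw [h7] at h6 ⊢
        simp only [Equiv.Perm.coe_one, id] at h6 ⊢
        rw [neg_eq_zero] at h6
        exact h6.symm
    have h8 : ∑ v ∈ (fct31 i)ᶜ, x v i = 1 := by
      rw [Finset.sum_eq_single v₀]
      · rw [← h5 v₀ hv₀]
        have h7 : r₂ v₀ = Equiv.addRight (Pi.single i 1 : Dl31) := Pi.mulSingle_eq_same _ _
        rw [h7]
        simp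
      · intro v hv hvv
        rw [← h5 v (Finset.mem_compl.mp hv)]
        have h7 : r₂ v = 1 := Pi.mulSingle_eq_of_ne hvv _
        rw [h7]
        simp
      · intro h9
        exact absurd (Finset.mem_compl.mpr hv₀) h9
    rw [hx i] at h8
    exact zero_ne_one h8

end Pool.Helper85.SG
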