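import Pool.Agent.Helper85.SG.TwDefs

/-!
# Block F: twisted wreath products
-/

set_option autoImplicit false

namespace Pool.Helper85.SG

open Set

section F67

variable {H L : Type} [Group H] [Group L]

private theorem inl_mul67 (M : Subgroup (WG H L)) {β γ : H → L} (hβ : SemidirectProduct.inl β ∈ M)
    (hγ : SemidirectProduct.inl γ ∈ M) : (SemidirectProduct.inl (β * γ) : WG H L) ∈ M := by
  rw [map_mul]
  exact mul_mem hβ hγ

private theorem inl_inv67 (M : Subgroup (WG H L)) {β : H → L} (hβ : SemidirectProduct.inl β ∈ M) :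
    (SemidirectProduct.inl β⁻¹ : WG H L) ∈ M := by
  rw [map_inv]
  exact inv_mem hβ

private theorem inl_one67 (M : Subgroup (WG H L)) : (SemidirectProduct.inl (1 : H → L) : WG H L) ∈ M := by
  rw [map_one]
  exact one_mem M

private theorem mem_Hb67 (w : WG H L) : w ∈ Hb H L ↔ w.left = 1 := Iff.rfl

private theorem inr_mem67 (g : H) : (SemidirectProduct.inr g : WG H L) ∈ Hb H L := by
  rw [mem_Hb67]
  rfl

private theorem inl_Kt67 {X : Subgroup H} {φ : X →* L} {M : Subgroup (WG H L)} (hM : M ≤ Kt X φ) {β : H → L}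
    (hβ : SemidirectProduct.inl β ∈ M) : β ∈ Bs X φ := hM hβ

/-- left translations -/
private theorem inl_tr67 {M : Subgroup (WG H L)} (h1 : Hb H L ≤ M) {β : H → L} (hβ : SemidirectProduct.inl β ∈ M) (g : H) :
    (SemidirectProduct.inl (fun h => β (g⁻¹ * h)) : WG H L) ∈ M := by
  have e : (SemidirectProduct.inl (fun h => β (g⁻¹ * h)) : WG H L) =
      SemidirectProduct.inr g * SemidirectProduct.inl β * SemidirectProduct.inr g⁻¹ := by
    have h := SemidirectProduct.inl_aut (φ := (mulAutArrow (G := H) (A := H) (M := L))) g β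
    rw [← h]
    rfl
  rw [e]
  exact mul_mem (mul_mem (h1 (inr_mem67 g)) hβ) (h1 (inr_mem67 g⁻¹))

private theorem left_mem67 {M : Subgroup (WG H L)} (h1 : Hb H L ≤ M) {w : WG H L} (hw : w ∈ M) :
    (SemidirectProduct.inl w.left : WG H L) ∈ M := by
  have e : (SemidirectProduct.inl w.left : WG H L) = w * (SemidirectProduct.inr w.right)⁻¹ := by
    rw [eq_mul_inv_iff_mul_eq]
    exact SemidirectProduct.inl_left_mul_inr_right w
  rw [e]
  exact mul_mem hw (inv_mem (h1 (inr_mem67 _)))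

/-- a nontrivial element of the base group -/
private theorem exists67 {M : Subgroup (WG H L)} (h1 : Hb H L < M) :
    ∃ β : H → L, SemidirectProduct.inl β ∈ M ∧ β 1 ≠ 1 := by
  obtain ⟨w, hw, hw'⟩ := SetLike.exists_of_lt h1
  rw [mem_Hb67] at hw'
  obtain ⟨h, hh⟩ : ∃ h, w.left h ≠ 1 := by
    by_contra hcon
    push Not at hcon
    exact hw' (funext hcon)
  refine ⟨fun k => w.left (h⁻¹⁻¹ * k), inl_tr67 h1.le (left_mem67 h1.le hw) h⁻¹, ?_⟩
  simpa using hh

private theorem center67 [IsSimpleGroup L] (hL : ∃ a b : L, a * b ≠ b * a) (z : L) (hz : ∀ l : L, z * l = l * z) : z = 1 := by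
  have h1 : z ∈ Subgroup.center L := by
    rw [Subgroup.mem_center_iff]
    intro l
    exact (hz l).symm
  rcases (inferInstance : (Subgroup.center L).Normal).eq_bot_or_eq_top with h2 | h2
  · rw [h2] at h1
    exact Subgroup.mem_bot.1 h1
  · obtain ⟨a, b, hab⟩ := hL
    have h3 : b ∈ Subgroup.center L := by rw [h2]; exact Subgroup.mem_top b
    rw [Subgroup.mem_center_iff] at h3
    exact absurd (h3 a) hab

/-- a subset of a simple group which is a nontrivial normal subgroup -/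
private theorem simple67 [IsSimpleGroup L] (P : L → Prop) (h1 : P 1) (hm : ∀ a b, P a → P b → P (a * b))
    (hi : ∀ a, P a → P a⁻¹) (hn : ∀ a g, P a → P (g * a * g⁻¹)) (hne : ∃ a, P a ∧ a ≠ 1) (l : L) : P l := by
  let N : Subgroup L :=
    { carrier := {a | P a}
      one_mem' := h1
      mul_mem' := fun {a b} ha hb => hm a b ha hb
      inv_mem' := fun {a} ha => hi a ha }
  have hN : N.Normal := ⟨fun a ha g => hn a g ha⟩
  rcases hN.eq_bot_or_eq_top with h2 | h2
  · obtain ⟨a, ha, ha1⟩ := hne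
    have h3 : a ∈ N := ha
    rw [h2] at h3
    exact absurd (Subgroup.mem_bot.1 h3) ha1
  · have h3 : l ∈ N := by rw [h2]; exact Subgroup.mem_top l
    exact h3

end F67

section F

variable {H L : Type} [Group H] [Finite H] [Group L] [Finite L] [IsSimpleGroup L]
  (hL : ∃ a b : L, a * b ≠ b * a) (X : Subgroup H) (φ : X →* L) (hφ : Function.Surjective φ)

include hφ in
theorem tw_ker (M : Subgroup (WG H L)) (hM : M ≤ Kt X φ) (x : X) (hx : φ x = 1) :
    (x : H) ∈ per M := by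
  intro β hβ h
  have h1 := inl_Kt67 hM hβ h x
  rw [h1, hx, inv_one, one_mul, mul_one]

theorem tw_anti {H L : Type} [Group H] [Group L] (M M' : Subgroup (WG H L)) (h : M ≤ M') :
    per M' ≤ per M := fun _ hy β hβ => hy β (h hβ)

theorem tw_norm {H L : Type} [Group H] [Group L] (X : Subgroup H) (φ : X →* L)
    (M : Subgroup (WG H L)) (hM : M ≤ Kt X φ) (x : X) (y : H)
    (hy : y ∈ per M) : (x : H) * y * (x : H)⁻¹ ∈ per M := by
  intro β hβ h
  have hB := inl_Kt67 hM hβ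
  have h1 : β (h * ((x : H) * y * (x : H)⁻¹)) = (φ x⁻¹)⁻¹ * β (h * x * y) * φ x⁻¹ := by
    have := hB (h * x * y) x⁻¹
    rw [← this]
    congr 1
    rw [Subgroup.coe_inv]
    group
  have h2 := hy β hβ (h * x)
  rw [h1, h2, hB h x, map_inv]
  group

include hL hφ in
/-- evaluation at one is onto -/
theorem tw_ev (M : Subgroup (WG H L)) (h1 : Hb H L < M) (hM : M ≤ Kt X φ) (l : L) :
    ∃ β : H → L, SemidirectProduct.inl β ∈ M ∧ β 1 = l := by
  refine simple67 (fun l => ∃ β : H → L, SemidirectProduct.inl β ∈ M ∧ β 1 = l) ⟨1, inl_one67 M, rfl⟩ ?_ ?_ ?_ ?_ l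
  · rintro _ _ ⟨β, hβ, rfl⟩ ⟨γ, hγ, rfl⟩
    exact ⟨β * γ, inl_mul67 M hβ hγ, rfl⟩
  · rintro _ ⟨β, hβ, rfl⟩
    exact ⟨β⁻¹, inl_inv67 M hβ, rfl⟩
  · rintro _ g ⟨β, hβ, rfl⟩
    obtain ⟨x, rfl⟩ := hφ g
    refine ⟨fun h => β ((x : H)⁻¹ * h), inl_tr67 h1.le hβ x, ?_⟩
    have h2 := inl_Kt67 hM hβ 1 x⁻¹
    have h3 : (x : H)⁻¹ * 1 = 1 * ((x⁻¹ : X) : H) := by
      rw [Subgroup.coe_inv, one_mul, mul_one]
    show β ((x : H)⁻¹ * 1) = _
    rw [h3, h2, map_inv, inv_inv]
  · obtain ⟨β, hβ, h2⟩ := exists67 h1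
    exact ⟨β 1, ⟨β, hβ, rfl⟩, h2⟩

include hL hφ in
theorem tw_inter (M : Subgroup (WG H L)) (h1 : Hb H L < M) (hM : M ≤ Kt X φ) (x : X)
    (hx : (x : H) ∈ per M) : φ x = 1 := by
  refine center67 hL _ fun l => ?_
  obtain ⟨β, hβ, rfl⟩ := tw_ev hL X φ hφ M h1 hM l
  have h2 := hx β hβ 1
  have h3 := inl_Kt67 hM hβ 1 x
  rw [h2] at h3
  have h4 : φ x * β 1 = φ x * ((φ x)⁻¹ * β 1 * φ x) := by rw [← h3]
  rw [h4]
  group

theorem tw_pt_anti {H L : Type} [Group H] [Group L] (X : Subgroup H) (φ : X →* L)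
    (V V' : Subgroup H) (h : V ≤ V') : ptV X φ V' ≤ ptV X φ V := by
  intro w hw
  have hw' : w.left ∈ CV X φ V' := hw
  exact ⟨hw'.1, fun g y hy => hw'.2 g y (h hy)⟩

/-- the function supported on `V X` -/
private theorem exists_b67 {H L : Type} [Group H] [Group L] (X : Subgroup H) (φ : X →* L) (V : Subgroup H)
    (hn : ∀ (x : X) (y : H), y ∈ V → (x : H) * y * (x : H)⁻¹ ∈ V) (hk : ∀ x : X, (x : H) ∈ V → φ x = 1) (l : L) :
    ∃ b : H → L, b ∈ CV X φ V ∧ (∀ v ∈ V, ∀ x : X, b (v * x) = (φ x)⁻¹ * l * φ x) ∧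
      ∀ h, b h ≠ 1 → ∃ v ∈ V, ∃ x : X, h = v * x := by
  classical
  have hb : ∀ h : H, ∃ c : L, (∀ v ∈ V, ∀ x : X, h = v * x → c = (φ x)⁻¹ * l * φ x) ∧
      (c ≠ 1 → ∃ v ∈ V, ∃ x : X, h = v * x) := by
    intro h
    by_cases hh : ∃ v ∈ V, ∃ x : X, h = v * x
    · obtain ⟨v, hv, x, rfl⟩ := hh
      refine ⟨(φ x)⁻¹ * l * φ x, ?_, fun _ => ⟨v, hv, x, rfl⟩⟩
      intro v' hv' x' he
      have h1 : ((x' * x⁻¹ : X) : H) ∈ V := by
        have h2 : ((x' * x⁻¹ : X) : H) = v'⁻¹ * v := by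
          rw [Subgroup.coe_mul, Subgroup.coe_inv, mul_inv_eq_iff_eq_mul, eq_comm, mul_assoc, inv_mul_eq_iff_eq_mul]
          exact he
        rw [h2]
        exact mul_mem (inv_mem hv') hv
      have h3 := hk _ h1
      rw [map_mul, map_inv, mul_inv_eq_one] at h3
      rw [h3]
    · refine ⟨1, fun v hv x he => absurd ⟨v, hv, x, he⟩ hh, fun h => absurd rfl h⟩
  choose b hb1 hb2 using hb
  refine ⟨b, ⟨?_, ?_⟩, fun v hv x => hb1 _ v hv x rfl, fun h hh => hb2 h hh⟩
  · intro h x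
    by_cases hh : ∃ v ∈ V, ∃ x : X, h = v * x
    · obtain ⟨v, hv, x', rfl⟩ := hh
      rw [hb1 (v * x') v hv x' rfl, hb1 (v * x' * x) v hv (x' * x) (by rw [Subgroup.coe_mul, mul_assoc]), map_mul]
      group
    · have h1 : b h = 1 := by
        by_contra hcon
        exact hh (hb2 h hcon)
      have h2 : b (h * x) = 1 := by
        by_contra hcon
        obtain ⟨v, hv, x', he⟩ := hb2 _ hcon
        apply hh
        refine ⟨v, hv, x' * x⁻¹, ?_⟩
        rw [Subgroup.coe_mul, Subgroup.coe_inv, ← mul_assoc, ← he, mul_inv_cancel_right]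
      rw [h1, h2, mul_one, inv_mul_cancel]
  · intro h y hy
    by_cases hh : ∃ v ∈ V, ∃ x : X, h = v * x
    · obtain ⟨v, hv, x', rfl⟩ := hh
      rw [hb1 (v * x') v hv x' rfl, hb1 (v * x' * y) (v * ((x' : H) * y * (x' : H)⁻¹)) (mul_mem hv (hn x' y hy)) x'
        (by group)]
    · have h1 : b h = 1 := by
        by_contra hcon
        exact hh (hb2 h hcon)
      have h2 : b (h * y) = 1 := by
        by_contra hcon
        obtain ⟨v, hv, x', he⟩ := hb2 _ hcon
        apply hh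
        refine ⟨v * ((x' : H) * y⁻¹ * (x' : H)⁻¹), mul_mem hv (hn x' _ (inv_mem hy)), x', ?_⟩
        have h3 : h = v * x' * y⁻¹ := by rw [← he, mul_inv_cancel_right]
        rw [h3]
        group
      rw [h1, h2]

include hL hφ in
theorem tw_pt (V : Subgroup H) (hn : ∀ (x : X) (y : H), y ∈ V → (x : H) * y * (x : H)⁻¹ ∈ V)
    (hk : ∀ x : X, (x : H) ∈ V ↔ φ x = 1) (hX : ¬ V ≤ X) :
    Hb H L < ptV X φ V ∧ ptV X φ V < Kt X φ ∧ per (ptV X φ V) = V := by
  obtain ⟨l0, hl0⟩ : ∃ l : L, l ≠ 1 := by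
    obtain ⟨a, b, hab⟩ := hL
    refine ⟨a, fun h => hab ?_⟩
    rw [h, one_mul, mul_one]
  have hpt : ∀ β : H → L, (SemidirectProduct.inl β : WG H L) ∈ ptV X φ V ↔ β ∈ CV X φ V := fun β => Iff.rfl
  have hKt : ∀ β : H → L, (SemidirectProduct.inl β : WG H L) ∈ Kt X φ ↔ β ∈ Bs X φ := fun β => Iff.rfl
  have hv1 : ∀ b : H → L, (∀ v ∈ V, ∀ x : X, b (v * x) = (φ x)⁻¹ * l0 * φ x) → b 1 = l0 := by
    intro b hb
    have := hb 1 (one_mem V) 1
    simpa using this
  refine ⟨?_, ?_, ?_⟩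
  · refine SetLike.lt_iff_le_and_exists.2 ⟨?_, ?_⟩
    · intro w hw
      rw [mem_Hb67] at hw
      show w.left ∈ CV X φ V
      rw [hw]
      exact one_mem _
    · obtain ⟨b, hb1, hb2, -⟩ := exists_b67 X φ V hn (fun x hx => (hk x).1 hx) l0
      refine ⟨SemidirectProduct.inl b, (hpt b).2 hb1, fun h => hl0 ?_⟩
      rw [mem_Hb67] at h
      have h2 : b = 1 := h
      rw [← hv1 b hb2, h2]
      rfl
  · refine SetLike.lt_iff_le_and_exists.2 ⟨?_, ?_⟩
    · intro w hw
      have hw' : w.left ∈ CV X φ V := hw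
      exact hw'.1
    · obtain ⟨b, hb1, hb2, hb3⟩ := exists_b67 X φ (⊥ : Subgroup H) (fun x y hy => by
        rw [Subgroup.mem_bot] at hy ⊢
        rw [hy, mul_one, mul_inv_cancel]) (fun x hx => by
        rw [Subgroup.mem_bot] at hx
        have : x = 1 := Subtype.ext hx
        rw [this, map_one]) l0
      refine ⟨SemidirectProduct.inl b, (hKt b).2 hb1.1, fun h => ?_⟩
      obtain ⟨y, hy, hyX⟩ : ∃ y ∈ V, y ∉ X := by
        by_contra hcon
        push Not at hcon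
        exact hX hcon
      have h2 := ((hpt b).1 h).2 1 y hy
      have h3 : b 1 = l0 := by
        have := hb2 1 (one_mem _) 1
        simpa using this
      rw [h3, one_mul] at h2
      obtain ⟨v, hv, x, he⟩ := hb3 y (by rw [h2]; exact hl0)
      apply hyX
      rw [Subgroup.mem_bot] at hv
      rw [he, hv, one_mul]
      exact x.2
  · refine le_antisymm (fun y hy => ?_) (fun y hy β hβ h => ((hpt β).1 hβ).2 h y hy)
    have key : ∀ l : L, l ≠ 1 → ∃ v ∈ V, ∃ x : X, y = v * x ∧ (φ x)⁻¹ * l * φ x = l := by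
      intro l hl
      obtain ⟨b, hb1, hb2, hb3⟩ := exists_b67 X φ V hn (fun x hx => (hk x).1 hx) l
      have h1 : b 1 = l := by
        have := hb2 1 (one_mem V) 1
        simpa using this
      have h2 := hy b ((hpt b).2 hb1) 1
      rw [one_mul, h1] at h2
      obtain ⟨v, hv, x, he⟩ := hb3 y (by rw [h2]; exact hl)
      refine ⟨v, hv, x, he, ?_⟩
      rw [← hb2 v hv x, ← he, h2]
    obtain ⟨v, hv, x, he, -⟩ := key l0 hl0
    have hx : φ x = 1 := by
      refine center67 hL _ fun l => ?_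
      by_cases hl : l = 1
      · rw [hl, mul_one, one_mul]
      obtain ⟨v', hv', x', he', h3⟩ := key l hl
      have h4 : φ x' = φ x := by
        have h5 : ((x' * x⁻¹ : X) : H) ∈ V := by
          have h2 : ((x' * x⁻¹ : X) : H) = v'⁻¹ * v := by
            rw [Subgroup.coe_mul, Subgroup.coe_inv, mul_inv_eq_iff_eq_mul, eq_comm, mul_assoc, inv_mul_eq_iff_eq_mul,
              ← he', ← he]
          rw [h2]
          exact mul_mem (inv_mem hv') hv
        have h6 := (hk _).1 h5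
        rwa [map_mul, map_inv, mul_inv_eq_one] at h6
      rw [h4] at h3
      have h7 : φ x * l = φ x * ((φ x)⁻¹ * l * φ x) := by rw [h3]
      rw [h7]
      group
    rw [he]
    exact mul_mem hv ((hk x).2 hx)

include hL hφ in
/-- if the kernels of the evaluations at different cosets of `X` differ, then `M` is everything -/
theorem tw_full (M : Subgroup (WG H L)) (h1 : Hb H L < M) (hM : M ≤ Kt X φ)
    (h : ∀ y : H, (∀ β : H → L, SemidirectProduct.inl β ∈ M → β 1 = 1 → β y = 1) → y ∈ X) :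
    M = Kt X φ := by
  classical
  have : Fintype H := Fintype.ofFinite H
  -- evaluation at any point is onto
  have hev : ∀ (g : H) (l : L), ∃ β : H → L, SemidirectProduct.inl β ∈ M ∧ β g = l := by
    intro g l
    obtain ⟨β, hβ, h2⟩ := tw_ev hL X φ hφ M h1 hM l
    refine ⟨fun k => β (g⁻¹ * k), inl_tr67 h1.le hβ g, ?_⟩
    show β (g⁻¹ * g) = l
    rw [inv_mul_cancel, h2]
  -- two cosets
  have htwo : ∀ g k : H, g⁻¹ * k ∉ X → ∀ l : L, ∃ β : H → L, SemidirectProduct.inl β ∈ M ∧ β g = 1 ∧ β k = l := by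
    intro g k hgk l
    refine simple67 (fun l => ∃ β : H → L, SemidirectProduct.inl β ∈ M ∧ β g = 1 ∧ β k = l) ⟨1, inl_one67 M, rfl, rfl⟩
      ?_ ?_ ?_ ?_ l
    · rintro _ _ ⟨β, hβ, hβ1, rfl⟩ ⟨γ, hγ, hγ1, rfl⟩
      exact ⟨β * γ, inl_mul67 M hβ hγ, by rw [Pi.mul_apply, hβ1, hγ1, mul_one], rfl⟩
    · rintro _ ⟨β, hβ, hβ1, rfl⟩
      exact ⟨β⁻¹, inl_inv67 M hβ, by rw [Pi.inv_apply, hβ1, inv_one], rfl⟩
    · rintro _ a ⟨β, hβ, hβ1, rfl⟩
      obtain ⟨γ, hγ, rfl⟩ := hev k a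
      refine ⟨γ * β * γ⁻¹, inl_mul67 M (inl_mul67 M hγ hβ) (inl_inv67 M hγ), ?_, rfl⟩
      rw [Pi.mul_apply, Pi.mul_apply, Pi.inv_apply, hβ1, mul_one, mul_inv_cancel]
    · by_contra hcon
      push Not at hcon
      apply hgk
      apply h
      intro β hβ hβ1
      refine hcon _ ⟨fun m => β (g⁻¹ * m), inl_tr67 h1.le hβ g, ?_, rfl⟩
      show β (g⁻¹ * g) = 1
      rw [inv_mul_cancel, hβ1]
  -- finitely many cosets
  have hfin : ∀ (J : Finset H) (k : H), (∀ g ∈ J, g⁻¹ * k ∉ X) → ∀ l : L,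
      ∃ β : H → L, SemidirectProduct.inl β ∈ M ∧ β k = l ∧ ∀ g ∈ J, β g = 1 := by
    intro J
    induction J using Finset.induction_on with
    | empty =>
      intro k _ l
      obtain ⟨β, hβ, h2⟩ := hev k l
      exact ⟨β, hβ, h2, by simp⟩
    | insert g J hgJ ih =>
      intro k hk l
      refine simple67 (fun l => ∃ β : H → L, SemidirectProduct.inl β ∈ M ∧ β k = l ∧ ∀ m ∈ insert g J, β m = 1)
        ⟨1, inl_one67 M, rfl, fun _ _ => rfl⟩ ?_ ?_ ?_ ?_ l
      · rintro _ _ ⟨β, hβ, rfl, hβ1⟩ ⟨γ, hγ, rfl, hγ1⟩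
        exact ⟨β * γ, inl_mul67 M hβ hγ, rfl, fun m hm => by rw [Pi.mul_apply, hβ1 m hm, hγ1 m hm, mul_one]⟩
      · rintro _ ⟨β, hβ, rfl, hβ1⟩
        exact ⟨β⁻¹, inl_inv67 M hβ, rfl, fun m hm => by rw [Pi.inv_apply, hβ1 m hm, inv_one]⟩
      · rintro _ a ⟨β, hβ, rfl, hβ1⟩
        obtain ⟨γ, hγ, rfl⟩ := hev k a
        refine ⟨γ * β * γ⁻¹, inl_mul67 M (inl_mul67 M hγ hβ) (inl_inv67 M hγ), rfl, fun m hm => ?_⟩
        rw [Pi.mul_apply, Pi.mul_apply, Pi.inv_apply, hβ1 m hm, mul_one, mul_inv_cancel]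
      · obtain ⟨a, b, hab⟩ := hL
        obtain ⟨β, hβ, hβk, hβ1⟩ := ih k (fun m hm => hk m (Finset.mem_insert_of_mem hm)) a
        obtain ⟨γ, hγ, hγg, hγk⟩ := htwo g k (hk g (Finset.mem_insert_self g J)) b
        refine ⟨a * b * a⁻¹ * b⁻¹, ⟨β * γ * β⁻¹ * γ⁻¹,
          inl_mul67 M (inl_mul67 M (inl_mul67 M hβ hγ) (inl_inv67 M hβ)) (inl_inv67 M hγ), ?_, ?_⟩, ?_⟩
        · rw [Pi.mul_apply, Pi.mul_apply, Pi.mul_apply, Pi.inv_apply, Pi.inv_apply, hβk, hγk]
        · intro m hm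
          rw [Pi.mul_apply, Pi.mul_apply, Pi.mul_apply, Pi.inv_apply, Pi.inv_apply]
          rcases Finset.mem_insert.1 hm with rfl | hm
          · rw [hγg]
            group
          · rw [hβ1 m hm]
            group
        · intro he
          apply hab
          have h2 : a * b * a⁻¹ = b := by rwa [mul_inv_eq_one] at he
          rwa [mul_inv_eq_iff_eq_mul] at h2
  -- all functions
  have hBs : ∀ γ ∈ Bs X φ, (SemidirectProduct.inl γ : WG H L) ∈ M := by
    intro γ hγ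
    have key : ∀ S : Finset H, ∃ β : H → L, SemidirectProduct.inl β ∈ M ∧ (∀ g ∈ S, β g = γ g) ∧
        ∀ g, (∀ a ∈ S, a⁻¹ * g ∉ X) → β g = 1 := by
      intro S
      induction S using Finset.induction_on with
      | empty => exact ⟨1, inl_one67 M, by simp, fun _ _ => rfl⟩
      | insert a S haS ih =>
        obtain ⟨β, hβ, hβ1, hβ2⟩ := ih
        by_cases ha : ∃ m ∈ S, m⁻¹ * a ∈ X
        · obtain ⟨m, hm, hma⟩ := ha
          refine ⟨β, hβ, fun g hg => ?_, fun g hg => hβ2 g fun x hx => hg x (Finset.mem_insert_of_mem hx)⟩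
          rcases Finset.mem_insert.1 hg with rfl | hg
          · have e : g = m * ((⟨m⁻¹ * g, hma⟩ : X) : H) := by
              show g = m * (m⁻¹ * g)
              rw [mul_inv_cancel_left]
            rw [e, inl_Kt67 hM hβ m ⟨m⁻¹ * g, hma⟩, hγ m ⟨m⁻¹ * g, hma⟩, hβ1 m hm]
          · exact hβ1 g hg
        · push Not at ha
          have ha' : β a = 1 := hβ2 a ha
          obtain ⟨δ, hδ, hδ1, hδ2⟩ := hfin (Finset.univ.filter fun g => g⁻¹ * a ∉ X) a
            (fun g hg => (Finset.mem_filter.1 hg).2) (γ a)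
          refine ⟨β * δ, inl_mul67 M hβ hδ, fun g hg => ?_, fun g hg => ?_⟩
          · rcases Finset.mem_insert.1 hg with rfl | hg
            · rw [Pi.mul_apply, ha', hδ1, one_mul]
            · rw [Pi.mul_apply, hβ1 g hg, hδ2 g (Finset.mem_filter.2 ⟨Finset.mem_univ g, ha g hg⟩), mul_one]
          · have h2 : g⁻¹ * a ∉ X := by
              intro h3
              apply hg a (Finset.mem_insert_self a S)
              have h4 := inv_mem h3
              rwa [mul_inv_rev, inv_inv] at h4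
            rw [Pi.mul_apply, hβ2 g fun x hx => hg x (Finset.mem_insert_of_mem hx),
              hδ2 g (Finset.mem_filter.2 ⟨Finset.mem_univ g, h2⟩), mul_one]
    obtain ⟨β, hβ, hβ1, -⟩ := key Finset.univ
    have e : β = γ := funext fun g => hβ1 g (Finset.mem_univ g)
    rwa [← e]
  refine le_antisymm hM fun w hw => ?_
  have hw' : w.left ∈ Bs X φ := hw
  rw [← SemidirectProduct.inl_left_mul_inr_right w]
  exact mul_mem (hBs _ hw') (h1.le (inr_mem67 _))

end F

end Pool.Helper85.SG
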