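import Pool.Agent.Helper85.SG.Defs

/-!
Twisted wreath products inside regular wreath products: definitions.
-/

set_option autoImplicit false

namespace Pool.Helper85.SG

section Tw

variable {H L : Type} [Group H] [Group L]

/-- The base group of the twisted wreath product, as functions on `H`. -/
def Bs (X : Subgroup H) (φ : X →* L) : Subgroup (H → L) where
  carrier := {β | ∀ (h : H) (x : X), β (h * x) = (φ x)⁻¹ * β h * φ x}
  one_mem' := by intro h x; simp
  mul_mem' := by
    intro a b ha hb h x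
    simp only [Pi.mul_apply, ha h x, hb h x]
    group
  inv_mem' := by
    intro a ha h x
    simp only [Pi.inv_apply, ha h x]
    group

/-- The regular wreath product. -/
abbrev WG (H L : Type) [Group H] [Group L] : Type :=
  (H → L) ⋊[mulAutArrow (G := H) (A := H) (M := L)] H

theorem mem_Bs {X : Subgroup H} {φ : X →* L} {β : H → L} :
    β ∈ Bs X φ ↔ ∀ (h : H) (x : X), β (h * x) = (φ x)⁻¹ * β h * φ x := Iff.rfl

theorem arrow_apply (g : H) (β : H → L) (h : H) :
    (mulAutArrow (G := H) (A := H) (M := L) g) β h = β (g⁻¹ * h) := rfl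

/-- functions in the base group which are invariant under right translation by `V`. -/
def CV (X : Subgroup H) (φ : X →* L) (V : Subgroup H) : Subgroup (H → L) where
  carrier := {β | β ∈ Bs X φ ∧ ∀ (h : H), ∀ y ∈ V, β (h * y) = β h}
  one_mem' := ⟨one_mem _, fun _ _ _ => rfl⟩
  mul_mem' := by
    rintro a b ⟨ha, ha'⟩ ⟨hb, hb'⟩
    exact ⟨mul_mem ha hb, fun h y hy => by simp only [Pi.mul_apply, ha' h y hy, hb' h y hy]⟩
  inv_mem' := by
    rintro a ⟨ha, ha'⟩
    exact ⟨inv_mem ha, fun h y hy => by simp only [Pi.inv_apply, ha' h y hy]⟩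

/-- The subgroup of the wreath product of the elements with left component in a left translation
invariant subgroup. -/
def lft (C : Subgroup (H → L)) (hC : ∀ β ∈ C, ∀ g : H, (fun h => β (g⁻¹ * h)) ∈ C) :
    Subgroup (WG H L) where
  carrier := {w | w.left ∈ C}
  one_mem' := one_mem C
  mul_mem' := by
    intro a b ha hb
    exact mul_mem ha (hC _ hb a.right)
  inv_mem' := by
    intro a ha
    have := hC _ (inv_mem ha) a.right⁻¹
    exact this

theorem Bs_left (X : Subgroup H) (φ : X →* L) :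
    ∀ β ∈ Bs X φ, ∀ g : H, (fun h => β (g⁻¹ * h)) ∈ Bs X φ := by
  intro β hβ g h x
  have := hβ (g⁻¹ * h) x
  simpa [mul_assoc] using this

theorem CV_left (X : Subgroup H) (φ : X →* L) (V : Subgroup H) :
    ∀ β ∈ CV X φ V, ∀ g : H, (fun h => β (g⁻¹ * h)) ∈ CV X φ V := by
  rintro β ⟨hβ, hβ'⟩ g
  exact ⟨Bs_left X φ β hβ g, fun h y hy => by
    have := hβ' (g⁻¹ * h) y hy
    simpa [mul_assoc] using this⟩

/-- The twisted wreath product. -/
def Kt (X : Subgroup H) (φ : X →* L) : Subgroup (WG H L) := lft (Bs X φ) (Bs_left X φ)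

/-- The complement. -/
def Hb (H L : Type) [Group H] [Group L] : Subgroup (WG H L) :=
  lft ⊥ (by intro β hβ g; rw [Subgroup.mem_bot] at *; subst hβ; rfl)

/-- The intermediate subgroup attached to `V`. -/
def ptV (X : Subgroup H) (φ : X →* L) (V : Subgroup H) : Subgroup (WG H L) :=
  lft (CV X φ V) (CV_left X φ V)

/-- The group of right periods of the base part of `M`. -/
def per (M : Subgroup (WG H L)) : Subgroup H where
  carrier := {y | ∀ β : H → L, SemidirectProduct.inl β ∈ M → ∀ h, β (h * y) = β h}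
  one_mem' := by intro β _ h; simp
  mul_mem' := by
    intro a b ha hb β hβ h
    rw [← mul_assoc, hb β hβ, ha β hβ]
  inv_mem' := by
    intro a ha β hβ h
    have := ha β hβ (h * a⁻¹)
    simpa using this.symm

end Tw

section Spec

variable (R Ω L : Type) [Group R] [MulAction R Ω] [Group L]

/-- The wreath product `L wr R` over `Ω`. -/
abbrev HG : Type := (Ω → L) ⋊[mulAutArrow (G := R) (A := Ω) (M := L)] R

variable {R Ω L}

/-- `D × R₀`, `D` the diagonal. -/
def XG (R₀ : Subgroup R) (ω₀ : Ω) : Subgroup (HG R Ω L) where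
  carrier := {h | (∀ ω, h.left ω = h.left ω₀) ∧ h.right ∈ R₀}
  one_mem' := ⟨fun _ => rfl, one_mem _⟩
  mul_mem' := by
    rintro a b ⟨ha, ha'⟩ ⟨hb, hb'⟩
    refine ⟨fun ω => ?_, mul_mem ha' hb'⟩
    have e : ∀ ω, (a * b).left ω = a.left ω * b.left (a.right⁻¹ • ω) := fun _ => rfl
    rw [e, e, ha ω, hb (a.right⁻¹ • ω), hb (a.right⁻¹ • ω₀)]
  inv_mem' := by
    rintro a ⟨ha, ha'⟩
    refine ⟨fun ω => ?_, inv_mem ha'⟩
    have e : ∀ ω, (a⁻¹).left ω = (a.left ((a.right⁻¹)⁻¹ • ω))⁻¹ := fun _ => rfl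
    rw [e, e, ha, ha ((a.right⁻¹)⁻¹ • ω₀)]

/-- The projection `D × R₀ → L`. -/
def phG (R₀ : Subgroup R) (ω₀ : Ω) : (XG (L := L) R₀ ω₀) →* L where
  toFun h := (h : HG R Ω L).left ω₀
  map_one' := rfl
  map_mul' := by
    rintro ⟨a, ha, ha'⟩ ⟨b, hb, hb'⟩
    have e : ∀ ω, (a * b).left ω = a.left ω * b.left (a.right⁻¹ • ω) := fun _ => rfl
    show (a * b).left ω₀ = a.left ω₀ * b.left ω₀
    rw [e, hb (a.right⁻¹ • ω₀)]

/-- The subgroup generated by the functions supported in `B` and `R'`. -/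
def VG (R' : Subgroup R) (B : Set Ω) : Subgroup (HG R Ω L) :=
  Subgroup.closure ({h | ∃ x : Ω → L, (∀ ω ∉ B, x ω = 1) ∧ h = SemidirectProduct.inl x} ∪
    {h | ∃ r ∈ R', h = SemidirectProduct.inr r})

end Spec

end Pool.Helper85.SG
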